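import Pool.Agent.Run7.h561.EC.Stm
import Pool.Agent.H934R2.Expl.Model
import Pool.Agent.TH990.FU.Geo

/-!
# Project CC: all the clusters (as compact sets), in any domain, with any boundary condition.
Definitions and statements (nothing is assumed).
-/

set_option autoImplicit false

namespace Run7.h561.CC

open H974 H12S Finset MeasureTheory TopologicalSpace Filter Topology
open Pool.Agent.TH990.FU (zp)
open scoped ENNReal

/-- Meshes, positions of the lattices, sampled edges and configurations. All the sets `F` of edges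
in `E n` are equally likely; `G n F` is the configuration (`F`, and a boundary condition which may
depend on `F`). The vertex `v` stands for the point `o n + δ n * v`. -/
structure Seq where
  δ : ℕ → ℝ
  o : ℕ → ℂ
  E : ℕ → Finset Edg
  G : ℕ → Finset Edg → Set Edg
  pos : ∀ n, 0 < δ n
  lim : Tendsto δ atTop (𝓝 0)

/-- On the compact subsets of `D`, for large `n`, the configuration is critical percolation. -/
def Seq.Agree (s : Seq) (D : Set ℂ) : Prop :=
  ∀ L ⊆ D, IsCompact L → ∀ᶠ n in atTop, ∀ e : Edg, zp (s.δ n) (s.o n) (src e) ∈ L →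
    zp (s.δ n) (s.o n) (tgt e) ∈ L → e ∈ s.E n ∧ ∀ F ⊆ s.E n, (e ∈ s.G n F ↔ e ∈ F)

/-- `K` is, up to a distance of one mesh, a union of clusters of the configuration `G`, each of
diameter at least `c0` times the diameter of `K`. -/
def IsUn (δ : ℝ) (o : ℂ) (c0 : ℝ) (G : Set Edg) (K : NonemptyCompacts ℂ) : Prop :=
  ∃ S : Set Vtx, (∀ u ∈ S, ∀ v, Reach G u v → v ∈ S) ∧
    (∀ u ∈ S, ∃ v, Reach G u v ∧ c0 * Metric.diam (K : Set ℂ) ≤ dist (zp δ o u) (zp δ o v)) ∧
    (∀ u ∈ S, ∃ z ∈ K, dist z (zp δ o u) ≤ δ) ∧ ∀ z ∈ K, ∃ u ∈ S, dist z (zp δ o u) ≤ δ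

/-- The rule `C` gives collections of unions of clusters. -/
def Seq.Rule (s : Seq) (c0 : ℝ) (C : ℕ → Finset Edg → NonemptyCompacts (NonemptyCompacts ℂ)) :
    Prop :=
  ∀ n, ∀ F ⊆ s.E n, ∀ K ∈ C n F, IsUn (s.δ n) (s.o n) c0 (s.G n F) K

noncomputable instance instMNCC : MeasurableSpace (NonemptyCompacts (NonemptyCompacts ℂ)) :=
  borel _
instance instBNCC : BorelSpace (NonemptyCompacts (NonemptyCompacts ℂ)) := ⟨rfl⟩

/-- The law of `f F`, when all sets `F` of edges of `E` are equally likely. -/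
noncomputable def lawM {Y : Type*} [MeasurableSpace Y] (E : Finset Edg) (f : Finset Edg → Y) :
    Measure Y :=
  ∑ F ∈ E.powerset, ENNReal.ofReal ((1 / 2) ^ E.card) • Measure.dirac (f F)

theorem lawM_apply {Y : Type*} [MeasurableSpace Y] (E : Finset Edg) (f : Finset Edg → Y)
    {A : Set Y} (hA : MeasurableSet A) :
    lawM E f A = ENNReal.ofReal (PQ (1 / 2) E (fun F => f F ∈ A)) := by
  classical
  unfold lawM
  rw [Measure.finsetSum_apply]
  unfold PQ Pr
  rw [H973.Ex_half, ENNReal.ofReal_mul (by positivity), ENNReal.ofReal_sum_of_nonneg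
    (fun _ _ => ind_nonneg _), Finset.mul_sum]
  apply Finset.sum_congr rfl
  intro F _
  rw [Measure.smul_apply, Measure.dirac_apply' _ hA, smul_eq_mul]
  congr 1
  by_cases h : f F ∈ A
  · rw [ind_of h, Set.indicator_of_mem h]; simp
  · rw [ind_not_of h, Set.indicator_of_notMem h]; simp

theorem lawM_univ {Y : Type*} [MeasurableSpace Y] (E : Finset Edg) (f : Finset Edg → Y) :
    lawM E f Set.univ = 1 := by
  rw [lawM_apply E f MeasurableSet.univ]
  have : PQ (1 / 2) E (fun F => f F ∈ (Set.univ : Set Y)) = 1 :=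
    Pr_true _ (fun F _ => Set.mem_univ _)
  rw [this]
  simp

/-- The law of `f F`, when all sets `F` of edges of `E` are equally likely. -/
noncomputable def lawE {Y : Type*} [MeasurableSpace Y] (E : Finset Edg) (f : Finset Edg → Y) :
    ProbabilityMeasure Y :=
  ⟨lawM E f, ⟨lawM_univ E f⟩⟩

theorem lawE_apply {Y : Type*} [MeasurableSpace Y] (E : Finset Edg) (f : Finset Edg → Y)
    {A : Set Y} (hA : MeasurableSet A) :
    (lawE E f : Measure Y) A = ENNReal.ofReal (PQ (1 / 2) E (fun F => f F ∈ A)) :=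
  lawM_apply E f hA

/-- The law of the collection. -/
noncomputable def Seq.law (s : Seq) (C : ℕ → Finset Edg → NonemptyCompacts (NonemptyCompacts ℂ))
    (n : ℕ) : ProbabilityMeasure (NonemptyCompacts (NonemptyCompacts ℂ)) := lawE (s.E n) (C n)

/-- UPP: all boundaries of complementary components have dimension at most `4/3` in `D`. -/
def S_UPP : Prop := ∀ (s : Seq) (D : Set ℂ), IsOpen D → s.Agree D → ∀ c0 : ℝ, 0 < c0 →
  ∀ C : ℕ → Finset Edg → NonemptyCompacts (NonemptyCompacts ℂ), s.Rule c0 C →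
  ∀ μ : ProbabilityMeasure (NonemptyCompacts (NonemptyCompacts ℂ)),
  Tendsto (fun n => s.law C n) atTop (𝓝 μ) →
    ∀ᵐ 𝒞 : NonemptyCompacts (NonemptyCompacts ℂ)
      ∂(μ : Measure (NonemptyCompacts (NonemptyCompacts ℂ))),
      ∀ K ∈ 𝒞, (K : Set ℂ).Nontrivial → ∀ U : Set ℂ, IsOpen U → ∀ w : ℂ,
        dimH (frontier (connectedComponentIn (U \ (K : Set ℂ)) w) ∩ (U ∩ D)) ≤ 4 / 3

/-- LOW: around each of their points in `D` they have dimension at least `4/3`. -/
def S_LOW : Prop := ∀ (s : Seq) (D : Set ℂ), IsOpen D → s.Agree D → ∀ c0 : ℝ, 0 < c0 →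
  ∀ C : ℕ → Finset Edg → NonemptyCompacts (NonemptyCompacts ℂ), s.Rule c0 C →
  ∀ μ : ProbabilityMeasure (NonemptyCompacts (NonemptyCompacts ℂ)),
  Tendsto (fun n => s.law C n) atTop (𝓝 μ) →
    ∀ᵐ 𝒞 : NonemptyCompacts (NonemptyCompacts ℂ)
      ∂(μ : Measure (NonemptyCompacts (NonemptyCompacts ℂ))),
      ∀ K ∈ 𝒞, (K : Set ℂ).Nontrivial → ∀ U : Set ℂ, IsOpen U → ∀ w : ℂ,
        ∀ z ∈ frontier (connectedComponentIn (U \ (K : Set ℂ)) w), z ∈ U → z ∈ D →
          ∀ ρ : ℝ, 0 < ρ →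
          4 / 3 ≤ dimH (frontier (connectedComponentIn (U \ (K : Set ℂ)) w) ∩
            (U ∩ D ∩ Metric.ball z ρ))

end Run7.h561.CC
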