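import Pool.Agent.Run7.h561.CC.StmL

/-! # The events are open -/

set_option autoImplicit false
set_option maxHeartbeats 400000

namespace Run7.h561.CC

open Set Filter Topology Metric TopologicalSpace

theorem isOpen_two (c : ℝ) : IsOpen {K : NonemptyCompacts ℂ | ∃ x ∈ K, ∃ y ∈ K, c < dist x y} := by
  have h : {K : NonemptyCompacts ℂ | ∃ x ∈ K, ∃ y ∈ K, c < dist x y} =
      ⋃ (x : ℂ) (y : ℂ) (e : ℝ) (_ : c + 2 * e ≤ dist x y), {K : NonemptyCompacts ℂ |
        ((K : Set ℂ) ∩ ball x e).Nonempty} ∩ {K : NonemptyCompacts ℂ |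
        ((K : Set ℂ) ∩ ball y e).Nonempty} := by
    ext K
    simp only [mem_ofPred_eq, mem_iUnion, mem_inter_iff, exists_prop]
    constructor
    · rintro ⟨x, hx, y, hy, hxy⟩
      refine ⟨x, y, (dist x y - c) / 2, by linarith, ⟨x, hx, mem_ball_self (by linarith)⟩,
        ⟨y, hy, mem_ball_self (by linarith)⟩⟩
    · rintro ⟨x, y, e, he, ⟨x', hx', hx2⟩, y', hy', hy2⟩
      refine ⟨x', hx', y', hy', ?_⟩
      rw [mem_ball] at hx2 hy2
      have h1 := dist_triangle4 x x' y' y
      rw [dist_comm x x'] at h1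
      linarith
  rw [h]
  exact isOpen_iUnion fun x => isOpen_iUnion fun y => isOpen_iUnion fun e => isOpen_iUnion fun _ =>
    (NonemptyCompacts.isOpen_inter_nonempty_of_isOpen isOpen_ball).inter
      (NonemptyCompacts.isOpen_inter_nonempty_of_isOpen isOpen_ball)

theorem isOpen_Ev (j h k : ℕ) (i : ℤ × ℤ × (ℤ × ℤ)) : IsOpen (Ev j h k i) := by
  have h1 : IsOpen {K : NonemptyCompacts ℂ | ∀ z ∈ K, ¬ (|z.re - (gp h k i).re| ≤ 2 * sk h k ∧
      |z.im - (gp h k i).im| ≤ 2 * sk h k)} := by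
    have hc : IsClosed {z : ℂ | |z.re - (gp h k i).re| ≤ 2 * sk h k ∧
        |z.im - (gp h k i).im| ≤ 2 * sk h k} := by
      refine IsClosed.and ?_ ?_
      · exact isClosed_le (by fun_prop) continuous_const
      · exact isClosed_le (by fun_prop) continuous_const
    exact NonemptyCompacts.isOpen_subsets_of_isOpen hc.isOpen_compl
  have h2 : IsOpen {K : NonemptyCompacts ℂ | ∃ z ∈ K, 0 < aloR i.2.2 (gp h k i) z ∧
      aloR i.2.2 (gp h k i) z < 1 / ((h : ℝ) + 1) / 4 ∧
      |acrR i.2.2 (gp h k i) z| < sk h k / 2} := by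
    have hc : IsOpen {z : ℂ | 0 < aloR i.2.2 (gp h k i) z ∧
        aloR i.2.2 (gp h k i) z < 1 / ((h : ℝ) + 1) / 4 ∧
        |acrR i.2.2 (gp h k i) z| < sk h k / 2} := by
      have a1 : Continuous (fun z : ℂ => aloR i.2.2 (gp h k i) z) := by
        unfold aloR
        fun_prop
      have a2 : Continuous (fun z : ℂ => acrR i.2.2 (gp h k i) z) := by
        unfold acrR
        fun_prop
      exact (isOpen_lt continuous_const a1).inter ((isOpen_lt a1 continuous_const).inter
        (isOpen_lt a2.abs continuous_const))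
    exact NonemptyCompacts.isOpen_inter_nonempty_of_isOpen hc
  exact h1.inter (h2.inter (isOpen_two _))

end Run7.h561.CC
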