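import Pool.Agent.Run7.h561.CC.Q_RAY
import Pool.Agent.Run7.h561.CC.Q_EV

/-! # BAD: the probability of the bad events at one scale -/

set_option autoImplicit false
set_option maxHeartbeats 400000

namespace Run7.h561.CC

open H974 H12S Finset H984N TopologicalSpace MeasureTheory Filter Topology
open Run7.h561 Run7.h561.EC
open Pool.Agent.H389R2.Dim
open Pool.Agent.TH990.FU (zp)
open scoped ENNReal

theorem sk_pos (h k : ℕ) : 0 < sk h k := by
  unfold sk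
  positivity

theorem sk_le (h k : ℕ) : 6 * ((k : ℝ) + 1) * sk h k = 1 / ((h : ℝ) + 1) := by
  unfold sk
  field_simp

/-- The starting points are at the distance `s` from the square. -/
theorem wb_cl (d : ℤ × ℤ) (w : ℂ) {s : ℝ} (hs : 0 < s) (b : Bool) : Cl w (wb d w s b) s := by
  unfold Cl wb
  by_cases h : d.2 = 0
  · cases b
    · simp only [h, if_true, Bool.false_eq_true, if_false, sub_self, abs_zero]
      exact ⟨hs.le, by rw [add_sub_cancel_left, abs_neg, abs_of_pos hs]⟩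
    · simp only [h, if_true, sub_self, abs_zero]
      exact ⟨hs.le, by rw [add_sub_cancel_left, abs_of_pos hs]⟩
  · cases b
    · simp only [h, Bool.false_eq_true, if_false, sub_self, abs_zero]
      exact ⟨by rw [add_sub_cancel_left, abs_neg, abs_of_pos hs], hs.le⟩
    · simp only [h, if_true, if_false, sub_self, abs_zero]
      exact ⟨by rw [add_sub_cancel_left, abs_of_pos hs], hs.le⟩

theorem wb_far {d : ℤ × ℤ} {w : ℂ} {s : ℝ} (hs : 0 < s) (b : Bool) {z : ℂ}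
    (h1 : ¬ (|z.re - w.re| ≤ 2 * s ∧ |z.im - w.im| ≤ 2 * s)) : s < dist (wb d w s b) z := by
  by_contra hcon
  push Not at hcon
  rw [dist_comm] at hcon
  have h2 := dist_re hcon
  have h3 := dist_im hcon
  obtain ⟨h4, h5⟩ := wb_cl d w hs b
  rw [abs_le] at h2 h3 h4 h5
  apply h1
  constructor <;> rw [abs_le] <;> constructor <;> linarith

/-- The box at `w'`. -/
theorem box_cl {δ : ℝ} (hδ : 0 < δ) {o w' : ℂ} {H : ℝ} (hx : 100 ≤ 4 * H / δ) {v : Vtx}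
    (hv : inR (qw δ o w' H).1 ((qw δ o w' H).1 + ((2 * bn H δ : ℕ) : ℤ)) (qw δ o w' H).2
      ((qw δ o w' H).2 + ((2 * bn H δ : ℕ) : ℤ)) v) : Cl w' (zp δ o v) (4 * H) := by
  obtain ⟨hnu, hnl, hn96⟩ := bn_bd (H := H) hδ hx
  obtain ⟨⟨a1, a2⟩, a3, a4⟩ := vw_bd hδ o w'
  obtain ⟨⟨i1, i2⟩, i3, i4⟩ := hv
  have hq1 : ((qw δ o w' H).1 : ℝ) = (vw δ o w').1 - bn H δ := by
    unfold qw; push_cast; rfl
  have hq2 : ((qw δ o w' H).2 : ℝ) = (vw δ o w').2 - bn H δ := by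
    unfold qw; push_cast; rfl
  have j1 : ((qw δ o w' H).1 : ℝ) ≤ v.1 := by exact_mod_cast i1
  have j2 : (v.1 : ℝ) ≤ (qw δ o w' H).1 + ((2 * bn H δ : ℕ) : ℝ) := by exact_mod_cast i2
  have j3 : ((qw δ o w' H).2 : ℝ) ≤ v.2 := by exact_mod_cast i3
  have j4 : (v.2 : ℝ) ≤ (qw δ o w' H).2 + ((2 * bn H δ : ℕ) : ℝ) := by exact_mod_cast i4
  rw [hq1] at j1 j2
  rw [hq2] at j3 j4
  push_cast at j1 j2 j3 j4
  have l1 := mul_le_mul_of_nonneg_left j1 hδ.le
  have l2 := mul_le_mul_of_nonneg_left j2 hδ.le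
  have l3 := mul_le_mul_of_nonneg_left j3 hδ.le
  have l4 := mul_le_mul_of_nonneg_left j4 hδ.le
  unfold Cl
  rw [zp_re, zp_im]
  constructor <;> rw [abs_le] <;> constructor <;> linarith

theorem mem_RE_ends {a b c d : ℤ} {e : Edg} (h : e ∈ RE a b c d) :
    inR a b c d (src e) ∧ inR a b c d (tgt e) := by
  obtain ⟨x, y, _ | _⟩ := e
  · simp only [mem_RE_false] at h
    unfold inR
    simp only [src_mk, tgt_false]
    omega
  · simp only [mem_RE_true] at h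
    unfold inR
    simp only [src_mk, tgt_true]
    omega

/-- **The deterministic part**: outside of the three bad events one of the two sets is good. -/
theorem det_one {d : ℤ × ℤ} (hd : Dir d) {δ : ℝ} (hδ : 0 < δ) {o w : ℂ} {s H : ℝ} (hs : 0 < s)
    (hsH : 6 * s ≤ H) (hδs : 100 * δ ≤ s) {K : NonemptyCompacts ℂ} {S : Set Vtx} {G : Set Edg}
    {F : Finset Edg} (hS : ∀ u ∈ S, ∀ v, Reach G u v → v ∈ S)
    (hfar : ∀ u ∈ S, ∃ v, Reach G u v ∧ 20 * H ≤ dist (zp δ o u) (zp δ o v))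
    (hSK : ∀ u ∈ S, ∃ z ∈ K, dist z (zp δ o u) ≤ δ)
    (hKS : ∀ z ∈ K, ∃ u ∈ S, dist z (zp δ o u) ≤ δ)
    (hGF : ∀ e : Edg, Cl w (zp δ o (src e)) (5 * H) → Cl w (zp δ o (tgt e)) (5 * H) →
      (e ∈ G ↔ e ∈ F))
    (h1 : ∀ z ∈ K, ¬ (|z.re - w.re| ≤ 2 * s ∧ |z.im - w.im| ≤ 2 * s))
    (h2 : ∃ z ∈ K, 0 < aloR d w z ∧ aloR d w z < H / 4 ∧ |acrR d w z| < s / 2)
    (hthin : ¬ Thin d (vw δ o w) (⌈H / 4 / δ⌉₊ + 2) ⌈H / δ⌉₊ (tb δ o d w s false)
      (tb δ o d w s true) F)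
    {t : ℝ} (ht : 0 < t) {M B : ℕ} {lam E δ1 ε' : ℝ} (hB : 1 ≤ B)
    (hbad : ∀ b, ¬ BadR d t lam E (⌈H / δ⌉₊ + 1 / 8 * ((2 * bn H δ : ℕ) : ℝ))
      (δ1 * ((2 * bn H δ : ℕ) : ℝ)) M B (2 * bn H δ) ⌈H / δ⌉₊ ((bn H δ : ℤ), (bn H δ : ℤ))
      (↑(Sub F (qw δ o (wb d w s b) H) (2 * bn H δ)) : Set Edg))
    (hlam : 0 < lam) (hE : 0 < E) (hδ1 : 0 < δ1) (hδ1b : 32 * H * δ1 ≤ s)
    (hε1 : 8 * δ ≤ ε') (hε2 : 2 * (2 ^ B * M * (8 * H) ^ (B - 1)) * δ ≤ ε') {NN : ℂ → ℕ → ℕ}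
    (hNN : ∀ (w' : ℂ) (k : ℕ) (S : Set ℂ) (a b : ℂ), (∀ x ∈ S, ‖x‖ ≤ ‖w'‖ + 2 * (4 * H)) →
      a ∈ S → Relation.ReflTransGen (fun x y => y ∈ S ∧ dist x y ≤ 1 / ((k : ℝ) + 1)) a b →
      ∃ x : Fin (NN w' k + 1) → ℂ, (∀ i, x i ∈ S) ∧ x 0 = a ∧ x (Fin.last (NN w' k)) = b ∧
      ∀ i : Fin (NN w' k), dist (x i.castSucc) (x i.succ) ≤ 1 / ((k : ℝ) + 1)) :
    ∃ b, Good t ε' (2 ^ (-t) / (E / lam ^ 2 * (4 * H) ^ (-t)))
      (AA (Metric.closedBall (0 : ℂ) (‖wb d w s b‖ + 2 * (4 * H)))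
        (fun k => QK (Sq (4 * H) (wb d w s b))ᶜ (2 ^ B * M * (8 * H) ^ (B - 1))
          (‖wb d w s b‖ + 2 * (4 * H)) (1 / ((k : ℝ) + 1)) B (NN (wb d w s b) k)
          (wb d w s b)) ε' K) := by
  have hH : 0 < H := by linarith
  have hx1 : 100 ≤ 4 * H / δ := by
    rw [le_div_iff₀ hδ]
    linarith
  obtain ⟨hnu, hnl, hn96⟩ := bn_bd (H := H) hδ hx1
  have hwide : ∀ {z : ℂ} {r : ℝ}, r ≤ 5 * H → Cl w z r → Cl w z (5 * H) := by
    rintro z r hr ⟨k1, k2⟩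
    exact ⟨k1.trans hr, k2.trans hr⟩
  rcases ray hd hδ (o := o) (w := w) hs hsH hδs hS hfar hSK hKS (F := F)
    (fun e e1 e2 he => (hGF e (hwide (by linarith) e1) (hwide (by linarith) e2)).1 he) h1 h2
    with h3 | ⟨b, z, hz, k, hk1, hk2, hk3⟩
  · exact absurd h3 hthin
  refine ⟨b, ?_⟩
  set w' : ℂ := wb d w s b with hw'
  set q : Vtx := qw δ o w' H with hq
  have hcl : ∀ v : Vtx, inR q.1 (q.1 + ((2 * bn H δ : ℕ) : ℤ)) q.2
      (q.2 + ((2 * bn H δ : ℕ) : ℤ)) v → Cl w (zp δ o v) (5 * H) := by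
    intro v hv
    obtain ⟨c1, c2⟩ := box_cl hδ hx1 hv
    obtain ⟨c3, c4⟩ := wb_cl d w hs b
    rw [← hw'] at c3 c4
    rw [abs_le] at c1 c2 c3 c4
    unfold Cl
    constructor <;> rw [abs_le] <;> constructor <;> linarith
  refine coreK hδ hH ht (fun z hz => wb_far hs b (h1 z hz)) hSK hKS (d := d)
    (F2 := (↑(Sub F (qw δ o w' H) (2 * bn H δ)) : Set Edg)) ?_ ?_ hB (hbad b) hlam hE hδ1 hδ1b
    hx1 (by linarith) hε1 hε2 (hNN w')
  · refine adm_box hS (fun e he => ?_) (fun u hu hin => ?_)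
    · obtain ⟨e1, e2⟩ := mem_RE_ends he
      exact hGF e (hcl _ e1) (hcl _ e2)
    · obtain ⟨v, hv1, hv2⟩ := hfar u hu
      refine ⟨v, hv1, fun hv3 => ?_⟩
      obtain ⟨c1, c2⟩ := box_cl hδ hx1 hin
      obtain ⟨c3, c4⟩ := box_cl hδ hx1 hv3
      rw [abs_le] at c1 c2 c3 c4
      have : dist (zp δ o u) (zp δ o v) ≤ 8 * H + 8 * H := by
        apply H984N.ML.dist_le_of
        · rw [abs_le]; constructor <;> linarith
        · rw [abs_le]; constructor <;> linarith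
      linarith
  · refine ⟨rel q z, ?_, k, hk1, hk2, ?_⟩
    · rw [shv_rel]
      exact hz
    · rw [hk3]
      unfold rel
      have e1 : q.1 = (vw δ o w').1 - bn H δ := rfl
      have e2 : q.2 = (vw δ o w').2 - bn H δ := rfl
      ext
      · simp only; rw [e1]; ring
      · simp only; rw [e2]; ring

/-- **BAD** -/
theorem t_BAD (loc4 : S_LOC4) (chn : Pool.Agent.Y989.FR.S_CHN) : S_BAD := by
  intro sq D hD hagr c0 hc0 C hC μ hμ j h m k hh1 hh2
  set H : ℝ := 1 / ((h : ℝ) + 1) with hHdef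
  have hH : 0 < H := by positivity
  set s : ℝ := sk h k with hsdef
  have hs : 0 < s := sk_pos h k
  have hsk : 6 * ((k : ℝ) + 1) * s = H := sk_le h k
  have hsH : 6 * s ≤ H := by
    rw [← hsk]
    have : (0 : ℝ) ≤ k := Nat.cast_nonneg k
    have := mul_nonneg this hs.le
    linarith
  set t : ℝ := 4 / 3 - 1 / ((m : ℝ) + 1) with htdef
  have hm1 : 1 / ((m : ℝ) + 1) ≤ 1 := by
    rw [div_le_one (by positivity)]
    have : (0 : ℝ) ≤ m := Nat.cast_nonneg m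
    linarith
  have hm0 : 0 < 1 / ((m : ℝ) + 1) := by positivity
  have ht : 0 < t := by linarith
  have ht1 : t < 4 / 3 := by linarith
  set I := Ix D j h k with hI
  have hok : Ok (fun _ : Edg => (1 / 2 : ℝ)) := okq (by norm_num) (by norm_num)
  -- the indices
  have hdir : ∀ i ∈ I, Dir i.2.2 := by
    intro i hi
    rw [hI] at hi
    unfold Ix at hi
    simp only [Finset.mem_filter, Finset.mem_product, Finset.mem_insert,
      Finset.mem_singleton] at hi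
    exact hi.1.2.2
  have hreg : ∀ i ∈ I, gp h k i ∈ Lj D j := by
    intro i hi
    rw [hI] at hi
    unfold Ix at hi
    simp only [Finset.mem_filter] at hi
    exact hi.2
  refine lgf hμ ht I (Ev := Ev j h k) (isOpen_Ev j h k) (T := Tg h k) ?_
  intro ε hε
  obtain ⟨ε1, hε1, hε2⟩ : ∃ δ : ℝ, 0 < δ ∧ ENNReal.ofReal δ ≤ ε := by
    rcases eq_or_ne ε ∞ with h | h
    · exact ⟨1, one_pos, by rw [h]; exact le_top⟩
    · exact ⟨ε.toReal, ENNReal.toReal_pos hε.ne' h, by rw [ENNReal.ofReal_toReal h]⟩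
  obtain ⟨ε3, hε3, hε4⟩ : ∃ e : ℝ, 0 < e ∧ (I.card : ℝ) * (2 * e) ≤ ε1 := by
    refine ⟨ε1 / (2 * (I.card + 1)), by positivity, ?_⟩
    have : (I.card : ℝ) * (2 * (ε1 / (2 * (I.card + 1)))) = ε1 * (I.card / (I.card + 1)) := by
      field_simp
    rw [this]
    have h2 : (I.card : ℝ) / (I.card + 1) ≤ 1 := by
      rw [div_le_one (by positivity)]
      linarith
    calc ε1 * (I.card / (I.card + 1)) ≤ ε1 * 1 := mul_le_mul_of_nonneg_left h2 hε1.le
      _ = ε1 := mul_one _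
  obtain ⟨δ1, hδ1, hδ1a, hδ1b⟩ : ∃ x : ℝ, 0 < x ∧ x ≤ 1 / 8 ∧ 32 * H * x ≤ s := by
    refine ⟨min (1 / 8) (s / (32 * H)), by positivity, min_le_left _ _, ?_⟩
    have h1 : min (1 / 8) (s / (32 * H)) ≤ s / (32 * H) := min_le_right _ _
    rw [le_div_iff₀ (by positivity)] at h1
    linarith
  obtain ⟨M, B, lam, E, n0, hM, hB, hlam, hE, hp⟩ := loc4 t ht ht1 ε3 δ1 (1 / 8) hε3 hδ1
    (by norm_num)
  choose NN hNN using fun (w' : ℂ) (k : ℕ) =>
    chn (‖w'‖ + 2 * (4 * H)) (1 / ((k : ℝ) + 1)) (by positivity)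
  set M' : ℝ := 2 ^ B * M * (8 * H) ^ (B - 1) with hM'
  have hM'0 : 0 < M' := by
    have : (0 : ℝ) < M := by exact_mod_cast hM
    positivity
  refine ⟨fun _ => 2 ^ (-t) / (E / lam ^ 2 * (4 * H) ^ (-t)),
    fun i b => Metric.closedBall (0 : ℂ) (‖wb i.2.2 (gp h k i) s b‖ + 2 * (4 * H)),
    fun i b kk => QK (Sq (4 * H) (wb i.2.2 (gp h k i) s b))ᶜ M'
      (‖wb i.2.2 (gp h k i) s b‖ + 2 * (4 * H)) (1 / ((kk : ℝ) + 1)) B
      (NN (wb i.2.2 (gp h k i) s b) kk) (wb i.2.2 (gp h k i) s b),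
    fun _ => by positivity, fun i b => isCompact_closedBall _ _,
    fun i b kk => isClosed_QK _ _ _ _ _ _ _, ?_, ?_⟩
  · intro i _ b f hf z _ hz
    refine geK (fun hw => ?_) hM'0 hz
    have h1 := wb_far (d := i.2.2) hs b (hf.1 _ hw)
    rw [dist_self] at h1
    linarith
  intro ε' hε'
  -- the region
  set L : Set ℂ := ⋃ i ∈ I, {z : ℂ | Cl (gp h k i) z (5 * H)} with hL
  have hLc : IsCompact L := by
    refine I.isCompact_biUnion fun i _ => ?_
    have hcl : IsClosed {z : ℂ | Cl (gp h k i) z (5 * H)} := by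
      refine IsClosed.and ?_ ?_
      · exact isClosed_le (by fun_prop) continuous_const
      · exact isClosed_le (by fun_prop) continuous_const
    refine (isCompact_closedBall (gp h k i) (5 * H + 5 * H)).of_isClosed_subset hcl ?_
    rintro z ⟨h1, h2⟩
    rw [Metric.mem_closedBall]
    exact H984N.ML.dist_le_of h1 h2
  have hLD : L ⊆ D := by
    intro z hz
    rw [hL] at hz
    simp only [Set.mem_iUnion] at hz
    obtain ⟨i, hi, h1, h2⟩ := hz
    apply (hreg i hi).2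
    rw [Metric.mem_ball]
    have := H984N.ML.dist_le_of h1 h2
    linarith
  have hev1 := hagr L hLD hLc
  obtain ⟨δ0, hδ0, hδ0s⟩ : ∃ δ0 : ℝ, 0 < δ0 ∧ ∀ δ : ℝ, 0 < δ → δ < δ0 → 100 * δ ≤ s ∧
      8 * δ ≤ ε' ∧ 2 * M' * δ ≤ ε' ∧ ((n0 : ℝ) + 6 / δ1 + 100) * δ ≤ 4 * H := by
    refine ⟨min (min (s / 100) (ε' / 8)) (min (ε' / (2 * M')) (4 * H / ((n0 : ℝ) + 6 / δ1 + 100))),
      by positivity, fun δ hδ hlt => ?_⟩
    have l1 : δ ≤ s / 100 := hlt.le.trans ((min_le_left _ _).trans (min_le_left _ _))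
    have l2 : δ ≤ ε' / 8 := hlt.le.trans ((min_le_left _ _).trans (min_le_right _ _))
    have l3 : δ ≤ ε' / (2 * M') := hlt.le.trans ((min_le_right _ _).trans (min_le_left _ _))
    have l4 : δ ≤ 4 * H / ((n0 : ℝ) + 6 / δ1 + 100) :=
      hlt.le.trans ((min_le_right _ _).trans (min_le_right _ _))
    rw [le_div_iff₀ (by positivity)] at l3 l4
    refine ⟨by linarith, by linarith, by linarith, by linarith⟩
  have hev2 : ∀ᶠ n in atTop, sq.δ n < δ0 := (tendsto_order.1 sq.lim).2 _ hδ0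
  filter_upwards [hev1, hev2] with n hn1 hn2
  have hδ := sq.pos n
  obtain ⟨g1, g2, g3, g4⟩ := hδ0s _ hδ hn2
  set δ : ℝ := sq.δ n with hδdef
  set o : ℂ := sq.o n with hodef
  have hx1 : 100 ≤ 4 * H / δ := by
    rw [le_div_iff₀ hδ]
    linarith
  obtain ⟨hnu, hnl, hn96⟩ := bn_bd (H := H) hδ hx1
  set N : ℕ := bn H δ with hNdef
  have hNn0 : (n0 : ℝ) + 6 / δ1 + 96 ≤ N := by
    have : δ * ((n0 : ℝ) + 6 / δ1 + 96) ≤ δ * N := by linarith
    exact le_of_mul_le_mul_left this hδ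
  set H' : ℕ := ⌈H / δ⌉₊ with hH'
  have hHc : H / δ ≤ (H' : ℝ) := Nat.le_ceil _
  have hHc2 : (H' : ℝ) < H / δ + 1 := Nat.ceil_lt_add_one (by positivity)
  have hh3 : (⌈H / 4 / δ⌉₊ : ℝ) < H / 4 / δ + 1 := Nat.ceil_lt_add_one (by positivity)
  have m1 : H ≤ δ * (H' : ℝ) := by
    rw [div_le_iff₀ hδ] at hHc; linarith
  have m2 : δ * (H' : ℝ) ≤ H + δ := by
    have := mul_le_mul_of_nonneg_left hHc2.le hδ.le
    rw [mul_add, mul_one, mul_div_cancel₀ _ hδ.ne'] at this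
    exact this
  have m4 : δ * (⌈H / 4 / δ⌉₊ : ℝ) ≤ H / 4 + δ := by
    have := mul_le_mul_of_nonneg_left hh3.le hδ.le
    rw [mul_add, mul_one, mul_div_cancel₀ _ hδ.ne'] at this
    exact this
  have hδ1N : 6 ≤ δ1 * (N : ℝ) := by
    have h1 : 6 / δ1 ≤ (N : ℝ) := by
      have : (0 : ℝ) ≤ n0 := Nat.cast_nonneg _
      linarith
    rw [div_le_iff₀ hδ1] at h1
    linarith
  have hH4 : (H' : ℝ) ≤ N / 4 + 2 := by
    have h2 : δ * (H' : ℝ) ≤ δ * (N / 4 + 2) := by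
      have : δ * ((N : ℝ) / 4 + 2) = δ * N / 4 + 2 * δ := by ring
      linarith
    exact le_of_mul_le_mul_left h2 hδ
  -- the agreement around an index
  have hagr2 : ∀ i ∈ I, ∀ e : Edg, Cl (gp h k i) (zp δ o (src e)) (5 * H) →
      Cl (gp h k i) (zp δ o (tgt e)) (5 * H) →
      e ∈ sq.E n ∧ ∀ F ⊆ sq.E n, (e ∈ sq.G n F ↔ e ∈ F) := by
    intro i hi e e1 e2
    exact hn1 e (Set.mem_biUnion hi e1) (Set.mem_biUnion hi e2)
  -- the bad events
  set Bd : (ℤ × ℤ × (ℤ × ℤ)) → Finset Edg → Prop := fun i F =>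
    (Thin i.2.2 (vw δ o (gp h k i)) (⌈H / 4 / δ⌉₊ + 2) H' (tb δ o i.2.2 (gp h k i) s false)
      (tb δ o i.2.2 (gp h k i) s true) F) ∨
    (BadR i.2.2 t lam E (H' + 1 / 8 * ((2 * N : ℕ) : ℝ)) (δ1 * ((2 * N : ℕ) : ℝ)) M B (2 * N) H'
      ((N : ℤ), (N : ℤ)) (↑(Sub F (qw δ o (wb i.2.2 (gp h k i) s false) H) (2 * N)) : Set Edg)) ∨
    (BadR i.2.2 t lam E (H' + 1 / 8 * ((2 * N : ℕ) : ℝ)) (δ1 * ((2 * N : ℕ) : ℝ)) M B (2 * N) H'
      ((N : ℤ), (N : ℤ)) (↑(Sub F (qw δ o (wb i.2.2 (gp h k i) s true) H) (2 * N)) : Set Edg))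
    with hBd
  have hprob : ∀ i ∈ I, PQ (1 / 2) (sq.E n) (Bd i) ≤ (1 / 2) ^ (k + 1) + 2 * ε3 := by
    intro i hi
    have hd := hdir i hi
    have hclw : ∀ {z : ℂ} {r : ℝ}, r ≤ 5 * H → Cl (gp h k i) z r → Cl (gp h k i) z (5 * H) := by
      rintro z r hr ⟨k1, k2⟩
      exact ⟨k1.trans hr, k2.trans hr⟩
    -- the thin corridor
    have p1 : PQ (1 / 2) (sq.E n) (Thin i.2.2 (vw δ o (gp h k i)) (⌈H / 4 / δ⌉₊ + 2) H'
        (tb δ o i.2.2 (gp h k i) s false) (tb δ o i.2.2 (gp h k i) s true)) ≤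
        (1 / 2) ^ (k + 1) := by
      obtain ⟨⟨t1, t2⟩, t3, t4⟩ := tb_bd hδ (o := o) (d := i.2.2) (w := gp h k i) (s := s)
      set T1 : ℤ := tb δ o i.2.2 (gp h k i) s false with hT1
      set T2 : ℤ := tb δ o i.2.2 (gp h k i) s true with hT2
      have hT12 : 0 ≤ T2 - T1 := by
        have : (0 : ℝ) ≤ δ * ((T2 : ℝ) - T1) := by linarith
        have := nonneg_of_mul_nonneg_right this hδ
        have h3 : ((T1 : ℤ) : ℝ) ≤ T2 := by linarith
        have h4 : T1 ≤ T2 := by exact_mod_cast h3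
        omega
      have hcast : (((T2 - T1).toNat : ℤ)) = T2 - T1 := Int.toNat_of_nonneg hT12
      refine thin_le hd (t := (T2 - T1).toNat) (k := k + 1) (by omega) (by omega) ?_ ?_ ?_ ?_ ?_
      · rw [hcast]
        have h1 : δ * ((((k + 1 : ℕ) : ℤ) * (T2 - T1 + 1) : ℤ) : ℝ) ≤
            δ * ((((H' : ℤ) - ((⌈H / 4 / δ⌉₊ : ℤ) + 2) : ℤ)) : ℝ) := by
          push_cast
          have k0 : (0 : ℝ) ≤ (k : ℝ) + 1 := by positivity
          have h2 : δ * (((k : ℝ) + 1) * ((T2 : ℝ) - T1 + 1)) ≤ ((k : ℝ) + 1) * (2 * s + 3 * δ) := by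
            have : δ * ((T2 : ℝ) - T1 + 1) ≤ 2 * s + 3 * δ := by linarith
            have := mul_le_mul_of_nonneg_left this k0
            linarith
          have h3 : ((k : ℝ) + 1) * (2 * s + 3 * δ) ≤ ((k : ℝ) + 1) * (3 * s) :=
            mul_le_mul_of_nonneg_left (by linarith) k0
          have h4 : ((k : ℝ) + 1) * (3 * s) = H / 2 := by linarith
          linarith
        have := le_of_mul_le_mul_left h1 hδ
        exact_mod_cast this
      · -- the edges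
        intro e he
        obtain ⟨e1, e2⟩ := mem_RE_ends he
        have hcl : ∀ v : Vtx, inR ((vw δ o (gp h k i)).1 - H') ((vw δ o (gp h k i)).1 + H')
            ((vw δ o (gp h k i)).2 - H') ((vw δ o (gp h k i)).2 + H') v →
            Cl (gp h k i) (zp δ o v) (5 * H) := by
          rintro v ⟨⟨i1, i2⟩, i3, i4⟩
          obtain ⟨⟨a1, a2⟩, a3, a4⟩ := vw_bd hδ o (gp h k i)
          have j1 : ((vw δ o (gp h k i)).1 : ℝ) - H' ≤ v.1 := by exact_mod_cast i1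
          have j2 : (v.1 : ℝ) ≤ (vw δ o (gp h k i)).1 + H' := by exact_mod_cast i2
          have j3 : ((vw δ o (gp h k i)).2 : ℝ) - H' ≤ v.2 := by exact_mod_cast i3
          have j4 : (v.2 : ℝ) ≤ (vw δ o (gp h k i)).2 + H' := by exact_mod_cast i4
          have l1 := mul_le_mul_of_nonneg_left j1 hδ.le
          have l2 := mul_le_mul_of_nonneg_left j2 hδ.le
          have l3 := mul_le_mul_of_nonneg_left j3 hδ.le
          have l4 := mul_le_mul_of_nonneg_left j4 hδ.le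
          unfold Cl
          rw [zp_re, zp_im]
          constructor <;> rw [abs_le] <;> constructor <;> linarith
        exact (hagr2 i hi e (hcl _ e1) (hcl _ e2)).1
      · positivity
      · have : δ * (-(H' : ℝ)) ≤ δ * (T1 : ℝ) := by linarith
        have := le_of_mul_le_mul_left this hδ
        exact_mod_cast this
      · have : δ * (T2 : ℝ) ≤ δ * (H' : ℝ) := by linarith
        have := le_of_mul_le_mul_left this hδ
        exact_mod_cast this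
    -- the boxes
    have p2 : ∀ b, PQ (1 / 2) (sq.E n) (fun F => BadR i.2.2 t lam E
        (H' + 1 / 8 * ((2 * N : ℕ) : ℝ)) (δ1 * ((2 * N : ℕ) : ℝ)) M B (2 * N) H'
        ((N : ℤ), (N : ℤ))
        (↑(Sub F (qw δ o (wb i.2.2 (gp h k i) s b) H) (2 * N)) : Set Edg)) ≤ ε3 := by
      intro b
      have hsub : RE (qw δ o (wb i.2.2 (gp h k i) s b) H).1
          ((qw δ o (wb i.2.2 (gp h k i) s b) H).1 + ((2 * N : ℕ) : ℤ))
          (qw δ o (wb i.2.2 (gp h k i) s b) H).2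
          ((qw δ o (wb i.2.2 (gp h k i) s b) H).2 + ((2 * N : ℕ) : ℤ)) ⊆ sq.E n := by
        intro e he
        obtain ⟨e1, e2⟩ := mem_RE_ends he
        have hcl : ∀ v : Vtx, inR (qw δ o (wb i.2.2 (gp h k i) s b) H).1
            ((qw δ o (wb i.2.2 (gp h k i) s b) H).1 + ((2 * N : ℕ) : ℤ))
            (qw δ o (wb i.2.2 (gp h k i) s b) H).2
            ((qw δ o (wb i.2.2 (gp h k i) s b) H).2 + ((2 * N : ℕ) : ℤ)) v →
            Cl (gp h k i) (zp δ o v) (5 * H) := by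
          intro v hv
          obtain ⟨c1, c2⟩ := box_cl hδ hx1 hv
          obtain ⟨c3, c4⟩ := wb_cl i.2.2 (gp h k i) hs b
          rw [abs_le] at c1 c2 c3 c4
          unfold Cl
          constructor <;> rw [abs_le] <;> constructor <;> linarith
        exact (hagr2 i hi e (hcl _ e1) (hcl _ e2)).1
      have h1 := pr_Sub (q := qw δ o (wb i.2.2 (gp h k i) s b) H) (n := 2 * N) hsub
        (fun F => BadR i.2.2 t lam E (H' + 1 / 8 * ((2 * N : ℕ) : ℝ)) (δ1 * ((2 * N : ℕ) : ℝ))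
          M B (2 * N) H' ((N : ℤ), (N : ℤ)) (↑F : Set Edg))
      rw [h1]
      have c1 : δ1 * ((2 * N : ℕ) : ℝ) + H' ≤ (((N : ℤ) : ℤ) : ℝ) := by
        push_cast
        have : δ1 * (2 * (N : ℝ)) ≤ 1 / 8 * (2 * (N : ℝ)) :=
          mul_le_mul_of_nonneg_right hδ1a (by positivity)
        linarith
      have c2 : (((N : ℤ) : ℤ) : ℝ) + H' ≤ ((2 * N : ℕ) : ℝ) - δ1 * ((2 * N : ℕ) : ℝ) := by
        push_cast
        have : δ1 * (2 * (N : ℝ)) ≤ 1 / 8 * (2 * (N : ℝ)) :=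
          mul_le_mul_of_nonneg_right hδ1a (by positivity)
        linarith
      have hn0 : n0 ≤ 2 * N := by
        have : (n0 : ℝ) ≤ N := by
          have : 0 < 6 / δ1 := by positivity
          linarith
        have : n0 ≤ N := by exact_mod_cast this
        omega
      exact hp (2 * N) hn0 ((N : ℤ), (N : ℤ)) H' c1 c2 c1 c2 i.2.2 hd
    refine (Pr_or_le hok _ _ _).trans ?_
    have h3 := Pr_or_le hok (sq.E n)
      (fun F => BadR i.2.2 t lam E (H' + 1 / 8 * ((2 * N : ℕ) : ℝ)) (δ1 * ((2 * N : ℕ) : ℝ)) M B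
        (2 * N) H' ((N : ℤ), (N : ℤ))
        (↑(Sub F (qw δ o (wb i.2.2 (gp h k i) s false) H) (2 * N)) : Set Edg))
      (fun F => BadR i.2.2 t lam E (H' + 1 / 8 * ((2 * N : ℕ) : ℝ)) (δ1 * ((2 * N : ℕ) : ℝ)) M B
        (2 * N) H' ((N : ℤ), (N : ℤ))
        (↑(Sub F (qw δ o (wb i.2.2 (gp h k i) s true) H) (2 * N)) : Set Edg))
    have h4 := p2 false
    have h5 := p2 true
    unfold PQ at p1 h4 h5
    linarith
  -- the conclusion
  unfold Seq.law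
  rw [lawE_apply _ _ (isOpen_bad I (isOpen_Ev j h k) (fun i b => isCompact_closedBall _ _)
    (fun i b kk => isClosed_QK _ _ _ _ _ _ _)).measurableSet]
  have hfin : PQ (1 / 2) (sq.E n) (fun F => ∃ i ∈ I, Bd i F) ≤
      (I.card : ℝ) * (1 / 2) ^ (k + 1) + ε1 := by
    refine (Pr_exists_le hok _ I Bd).trans ?_
    refine (Finset.sum_le_sum hprob).trans ?_
    rw [Finset.sum_const, nsmul_eq_mul, mul_add]
    linarith
  refine le_trans (ENNReal.ofReal_le_ofReal (le_trans (Pr_mono hok ?_) hfin)) ?_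
  · rintro F hF ⟨K, hK, i, hi, hKE, hgood⟩
    refine ⟨i, hi, ?_⟩
    by_contra hcon
    simp only [hBd, not_or] at hcon
    obtain ⟨n1, n2, n3⟩ := hcon
    obtain ⟨S, hS1, hS2, hS3, hS4⟩ := hC n F hF K hK
    obtain ⟨x, hx, y, hy, hxy⟩ := hKE.2.2
    have hdiam : dist x y ≤ Metric.diam (K : Set ℂ) :=
      Metric.dist_le_diam_of_mem K.isCompact.isBounded hx hy
    obtain ⟨b, hb⟩ := det_one (hdir i hi) hδ (o := o) (w := gp h k i) hs hsH g1 (K := K) (S := S)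
      (G := sq.G n F) (F := F) hS1 (fun u hu => by
        obtain ⟨v, hv1, hv2⟩ := hS2 u hu
        refine ⟨v, hv1, le_trans ?_ hv2⟩
        have h1 : c0 * (1 / ((j : ℝ) + 1)) ≤ c0 * Metric.diam (K : Set ℂ) :=
          mul_le_mul_of_nonneg_left (by linarith) hc0.le
        have h2 : c0 / ((j : ℝ) + 1) = c0 * (1 / ((j : ℝ) + 1)) := by ring
        linarith) hS3 hS4 (fun e e1 e2 => (hagr2 i hi e e1 e2).2 F hF) hKE.1 hKE.2.1 n1 ht hB
      (M := M) (lam := lam) (E := E) (δ1 := δ1) (ε' := ε')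
      (fun b => by cases b; exacts [n2, n3]) hlam hE hδ1 hδ1b g2 g3 (NN := NN) hNN
    exact hgood b hb
  · rw [ENNReal.ofReal_add (by positivity) hε1.le]
    exact add_le_add le_rfl hε2

end Run7.h561.CC
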