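import Pool.Agent.Run7.h165.CC.Upp2
import Pool.Agent.Run7.h165.CC.Low
import Pool.Agent.Run7.h561.CC.Q_BAD
import Pool.Agent.Run7.h561.EC.P_ALL
import Pool.Agent.W424.KI.Fin

/-!
# CC: clusters in any domain, with any boundary condition: the abstract theorem
-/

set_option autoImplicit false
set_option maxHeartbeats 400000

namespace Run7.h561.CC

open H974 H12S Finset MeasureTheory TopologicalSpace Filter Topology
open Pool.Agent.TH990.FU (zp)
open scoped ENNReal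

theorem t_low : S_LOW :=
  Run7.h165.CC.t_LOW (t_BAD Run7.h561.EC.a_LOC4 Pool.Agent.Y989.FR.CHN.t_CHN)

theorem t_upp : S_UPP := Run7.h165.CC.t_UPP Pool.Agent.W424.KI.u3

/-- **CC** -/
theorem t_CC (s : Seq) (D : Set ℂ) (hD : IsOpen D) (hag : s.Agree D) (c0 : ℝ) (hc0 : 0 < c0)
    (C : ℕ → Finset Edg → NonemptyCompacts (NonemptyCompacts ℂ)) (hC : s.Rule c0 C)
    (μ : ProbabilityMeasure (NonemptyCompacts (NonemptyCompacts ℂ)))
    (hμ : Tendsto (fun n => s.law C n) atTop (𝓝 μ)) :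
    ∀ᵐ 𝒞 : NonemptyCompacts (NonemptyCompacts ℂ)
      ∂(μ : Measure (NonemptyCompacts (NonemptyCompacts ℂ))),
      ∀ K ∈ 𝒞, (K : Set ℂ).Nontrivial → ∀ U : Set ℂ, IsOpen U → ∀ w : ℂ,
        ∀ z ∈ frontier (connectedComponentIn (U \ (K : Set ℂ)) w), z ∈ U → z ∈ D →
          ∀ ρ : ℝ, 0 < ρ →
          dimH (frontier (connectedComponentIn (U \ (K : Set ℂ)) w) ∩
            (U ∩ D ∩ Metric.ball z ρ)) = 4 / 3 := by
  filter_upwards [t_low s D hD hag c0 hc0 C hC μ hμ, t_upp s D hD hag c0 hc0 C hC μ hμ]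
    with 𝒞 h1 h2 K hK hnt U hU w z hz hzU hzD ρ hρ
  refine le_antisymm ?_ (h1 K hK hnt U hU w z hz hzU hzD ρ hρ)
  refine le_trans (dimH_mono ?_) (h2 K hK hnt U hU w)
  rintro x ⟨h3, h4, -⟩
  exact ⟨h3, h4⟩

end Run7.h561.CC
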