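import Pool.Agent.Run7.h561.CC.Stm
import Pool.Agent.Y989.FR.T_GEO

/-! # The closed conditions, and the limit of the chains -/

set_option autoImplicit false

namespace Run7.h561.CC

open Set Filter Topology Metric TopologicalSpace Run7.h561.EC Pool.Agent.Y989.FR.GEO

/-- `z` is close to `K`, and close to `w` through a chain of points which keep away from `K` and
from `O`, polynomially as seen from `z`. -/
def QK (O : Set ℂ) (M R e : ℝ) (B N : ℕ) (w : ℂ) : Set (NonemptyCompacts ℂ × ℂ) :=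
  {p | ‖p.2‖ ≤ R ∧ infDist p.2 (p.1 : Set ℂ) ≤ e ∧ ∃ x : Fin (N + 1) → ℂ, (∀ i, ‖x i‖ ≤ R) ∧
    dist (x 0) p.2 ≤ e ∧ dist (x (Fin.last N)) w ≤ e ∧
    (∀ i : Fin N, dist (x i.castSucc) (x i.succ) ≤ e) ∧
    (∀ i, dist (x i) p.2 ^ B ≤ M * infDist (x i) (p.1 : Set ℂ) + e) ∧
    ∀ i, ∀ y ∈ O, dist (x i) p.2 ^ B ≤ M * dist (x i) y + e}

theorem cont_infDist {Z : Type*} [TopologicalSpace Z] {a : Z → ℂ} {K : Z → NonemptyCompacts ℂ}
    (ha : Continuous a) (hK : Continuous K) :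
    Continuous (fun q => infDist (a q) (K q : Set ℂ)) :=
  (lipschitz_infDist (α := ℂ)).continuous.comp (ha.prodMk hK)

theorem isClosed_QK (O : Set ℂ) (M R e : ℝ) (B N : ℕ) (w : ℂ) : IsClosed (QK O M R e B N w) := by
  have : CompactSpace (Metric.closedBall (0 : ℂ) R) :=
    isCompact_iff_compactSpace.mp (isCompact_closedBall 0 R)
  let C : Set ((NonemptyCompacts ℂ × ℂ) × (Fin (N + 1) → Metric.closedBall (0 : ℂ) R)) :=
    {q | ‖q.1.2‖ ≤ R ∧ infDist q.1.2 (q.1.1 : Set ℂ) ≤ e ∧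
      dist ((q.2 0 : Metric.closedBall (0 : ℂ) R) : ℂ) q.1.2 ≤ e ∧
      dist ((q.2 (Fin.last N) : Metric.closedBall (0 : ℂ) R) : ℂ) w ≤ e ∧
      (∀ i : Fin N, dist ((q.2 i.castSucc : Metric.closedBall (0 : ℂ) R) : ℂ)
        ((q.2 i.succ : Metric.closedBall (0 : ℂ) R) : ℂ) ≤ e) ∧
      (∀ i : Fin (N + 1),
        dist ((q.2 i : Metric.closedBall (0 : ℂ) R) : ℂ) q.1.2 ^ B ≤
          M * infDist ((q.2 i : Metric.closedBall (0 : ℂ) R) : ℂ) (q.1.1 : Set ℂ) + e) ∧
      ∀ (i : Fin (N + 1)), ∀ y ∈ O,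
        dist ((q.2 i : Metric.closedBall (0 : ℂ) R) : ℂ) q.1.2 ^ B ≤
          M * dist ((q.2 i : Metric.closedBall (0 : ℂ) R) : ℂ) y + e}
  have hev : ∀ i : Fin (N + 1), Continuous (fun q : (NonemptyCompacts ℂ × ℂ) ×
      (Fin (N + 1) → Metric.closedBall (0 : ℂ) R) =>
      ((q.2 i : Metric.closedBall (0 : ℂ) R) : ℂ)) := by
    intro i
    fun_prop
  have hz : Continuous (fun q : (NonemptyCompacts ℂ × ℂ) ×
      (Fin (N + 1) → Metric.closedBall (0 : ℂ) R) => q.1.2) := by fun_prop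
  have hK : Continuous (fun q : (NonemptyCompacts ℂ × ℂ) ×
      (Fin (N + 1) → Metric.closedBall (0 : ℂ) R) => q.1.1) := by fun_prop
  have hC : IsClosed C := by
    refine IsClosed.inter (isClosed_le hz.norm continuous_const) (IsClosed.inter ?_ (IsClosed.inter
      ?_ (IsClosed.inter ?_ (IsClosed.inter ?_ (IsClosed.inter ?_ ?_)))))
    · exact isClosed_le (cont_infDist hz hK) continuous_const
    · exact isClosed_le ((hev 0).dist hz) continuous_const
    · exact isClosed_le ((hev (Fin.last N)).dist continuous_const) continuous_const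
    · have : {q : (NonemptyCompacts ℂ × ℂ) × (Fin (N + 1) →
          Metric.closedBall (0 : ℂ) R) | ∀ i : Fin N,
          dist ((q.2 i.castSucc : Metric.closedBall (0 : ℂ) R) : ℂ)
          ((q.2 i.succ : Metric.closedBall (0 : ℂ) R) : ℂ) ≤ e} = ⋂ i : Fin N,
          {q | dist ((q.2 i.castSucc : Metric.closedBall (0 : ℂ) R) : ℂ)
          ((q.2 i.succ : Metric.closedBall (0 : ℂ) R) : ℂ) ≤ e} := by
        ext q; simp only [Set.mem_iInter, Set.mem_setOf_eq]
      have h2 : IsClosed {q : (NonemptyCompacts ℂ × ℂ) × (Fin (N + 1) →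
          Metric.closedBall (0 : ℂ) R) | ∀ i : Fin N,
          dist ((q.2 i.castSucc : Metric.closedBall (0 : ℂ) R) : ℂ)
          ((q.2 i.succ : Metric.closedBall (0 : ℂ) R) : ℂ) ≤ e} := by
        rw [this]
        exact isClosed_iInter fun i =>
          isClosed_le ((hev i.castSucc).dist (hev i.succ)) continuous_const
      exact h2
    · have : {q : (NonemptyCompacts ℂ × ℂ) × (Fin (N + 1) →
          Metric.closedBall (0 : ℂ) R) | ∀ i : Fin (N + 1),
          dist ((q.2 i : Metric.closedBall (0 : ℂ) R) : ℂ) q.1.2 ^ B ≤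
          M * infDist ((q.2 i : Metric.closedBall (0 : ℂ) R) : ℂ) (q.1.1 : Set ℂ) + e} =
          ⋂ i : Fin (N + 1),
          {q | dist ((q.2 i : Metric.closedBall (0 : ℂ) R) : ℂ) q.1.2 ^ B ≤
          M * infDist ((q.2 i : Metric.closedBall (0 : ℂ) R) : ℂ) (q.1.1 : Set ℂ) + e} := by
        ext q; simp only [Set.mem_iInter, Set.mem_setOf_eq]
      have h2 : IsClosed {q : (NonemptyCompacts ℂ × ℂ) × (Fin (N + 1) →
          Metric.closedBall (0 : ℂ) R) | ∀ i : Fin (N + 1),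
          dist ((q.2 i : Metric.closedBall (0 : ℂ) R) : ℂ) q.1.2 ^ B ≤
          M * infDist ((q.2 i : Metric.closedBall (0 : ℂ) R) : ℂ) (q.1.1 : Set ℂ) + e} := by
        rw [this]
        refine isClosed_iInter fun i => ?_
        exact isClosed_le (((hev i).dist hz).pow B) ((continuous_const.mul
          (cont_infDist (hev i) hK)).add continuous_const)
      exact h2
    · have : {q : (NonemptyCompacts ℂ × ℂ) × (Fin (N + 1) →
          Metric.closedBall (0 : ℂ) R) | ∀ (i : Fin (N + 1)), ∀ y ∈ O,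
          dist ((q.2 i : Metric.closedBall (0 : ℂ) R) : ℂ) q.1.2 ^ B ≤
          M * dist ((q.2 i : Metric.closedBall (0 : ℂ) R) : ℂ) y + e} =
          ⋂ i : Fin (N + 1), ⋂ y ∈ O,
          {q | dist ((q.2 i : Metric.closedBall (0 : ℂ) R) : ℂ) q.1.2 ^ B ≤
          M * dist ((q.2 i : Metric.closedBall (0 : ℂ) R) : ℂ) y + e} := by
        ext q; simp only [Set.mem_iInter, Set.mem_setOf_eq]
      have h2 : IsClosed {q : (NonemptyCompacts ℂ × ℂ) × (Fin (N + 1) →
          Metric.closedBall (0 : ℂ) R) | ∀ (i : Fin (N + 1)), ∀ y ∈ O,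
          dist ((q.2 i : Metric.closedBall (0 : ℂ) R) : ℂ) q.1.2 ^ B ≤
          M * dist ((q.2 i : Metric.closedBall (0 : ℂ) R) : ℂ) y + e} := by
        rw [this]
        refine isClosed_iInter fun i => isClosed_iInter fun y => isClosed_iInter fun _ => ?_
        exact isClosed_le (((hev i).dist hz).pow B) ((continuous_const.mul
          ((hev i).dist continuous_const)).add continuous_const)
      exact h2
  have himg : QK O M R e B N w = Prod.fst '' C := by
    ext p
    constructor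
    · rintro ⟨h1, hs, x, hx, h2, h3, h4, h5, h6⟩
      refine ⟨(p, fun i => ⟨x i, ?_⟩), ⟨h1, hs, h2, h3, h4, h5, h6⟩, rfl⟩
      rw [mem_closedBall_zero_iff]
      exact hx i
    · rintro ⟨⟨p', x⟩, ⟨h1, hs, h2, h3, h4, h5, h6⟩, rfl⟩
      refine ⟨h1, hs, fun i => (x i : ℂ), fun i => ?_, h2, h3, h4, h5, h6⟩
      exact mem_closedBall_zero_iff.mp (x i).2
  rw [himg]
  exact isClosedMap_fst_of_compactSpace C hC

theorem stepK {U : Set ℂ} {M R : ℝ} {B : ℕ} {N : ℕ → ℕ} {w : ℂ} {f : NonemptyCompacts ℂ} {z : ℂ}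
    (hM : 0 < M) (hwz : w ≠ z)
    (hQ : ∀ k : ℕ, (f, z) ∈ QK Uᶜ M R (1 / ((k : ℝ) + 1)) B (N k) w) {η : ℝ}
    (hη : 0 < η) (hηκ : η ≤ dist w z / 4) :
    ∃ v : ℂ, dist v z ≤ 2 * η ∧ v ∈ connectedComponentIn (U \ (f : Set ℂ)) w := by
  have hκ : 0 < dist w z := dist_pos.2 hwz
  set K : Set ℂ := (U \ (f : Set ℂ))ᶜ with hK
  have hKc : U \ (f : Set ℂ) = Kᶜ := by rw [hK, compl_compl]
  have hηB : 0 < η ^ B := pow_pos hη B
  have hmη : 0 < η ^ B / (2 * M) := by positivity
  obtain ⟨k, hk⟩ := exists_nat_one_div_lt (lt_min (lt_min (half_pos hηB) hmη) (lt_min hη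
    (half_pos hκ)))
  set e : ℝ := 1 / ((k : ℝ) + 1) with he
  have he1 : e < η ^ B / 2 := hk.trans_le ((min_le_left _ _).trans (min_le_left _ _))
  have he2 : e < η ^ B / (2 * M) := hk.trans_le ((min_le_left _ _).trans (min_le_right _ _))
  have he3 : e < η := hk.trans_le ((min_le_right _ _).trans (min_le_left _ _))
  have he4 : e < dist w z / 2 := hk.trans_le ((min_le_right _ _).trans (min_le_right _ _))
  have hQk := hQ k
  rw [← he] at hQk
  generalize N k = n at hQk
  obtain ⟨-, -, x, hxR, hx0, hxN, hxs, hxd, hxO⟩ := hQk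
  replace hx0 : dist (x 0) z ≤ e := hx0
  replace hxN : dist (x (Fin.last n)) w ≤ e := hxN
  replace hxd : ∀ i, dist (x i) z ^ B ≤ M * infDist (x i) (f : Set ℂ) + e := hxd
  replace hxO : ∀ i, ∀ y ∈ Uᶜ, dist (x i) z ^ B ≤ M * dist (x i) y + e := hxO
  -- the chain with natural indices
  let X : ℕ → ℂ := fun i => x ⟨min i n, by omega⟩
  have hX0 : X 0 = x 0 := congrArg x (Fin.ext (Nat.zero_min n))
  have hXN : X n = x (Fin.last n) := congrArg x (Fin.ext (min_self n))
  have hXs : ∀ i, i < n → dist (X i) (X (i + 1)) ≤ e := by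
    intro i hi
    have h1 := hxs ⟨i, hi⟩
    have e1 : X i = x (Fin.castSucc ⟨i, hi⟩) := congrArg x (Fin.ext (min_eq_left hi.le))
    have e2 : X (i + 1) = x (Fin.succ ⟨i, hi⟩) := congrArg x (Fin.ext (min_eq_left hi))
    rw [e1, e2]
    exact h1
  have hXd : ∀ i, ∀ y ∈ K, dist (X i) z ^ B ≤ M * dist (X i) y + e := by
    intro i y hy
    by_cases hyU : y ∈ U
    · have h1 : y ∈ (f : Set ℂ) := by
        by_contra h2
        exact hy ⟨hyU, h2⟩
      refine (hxd _).trans ?_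
      have := mul_le_mul_of_nonneg_left (infDist_le_dist_of_mem (x := X i) h1) hM.le
      linarith
    · exact hxO _ y hyU
  -- points away from `z`
  have away : ∀ (i : ℕ), η ≤ dist (X i) z → ball (X i) (η ^ B / (2 * M)) ⊆ Kᶜ := by
    intro i hi
    apply Pool.Agent.Y989.FR.GEO.ball_sub
    intro y hy
    have h1 := hXd i y hy
    have h2 : η ^ B ≤ dist (X i) z ^ B := pow_le_pow_left₀ hη.le hi B
    rw [div_le_iff₀ (by positivity)]
    linarith
  have hP0 : dist (X 0) z < η := by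
    rw [hX0]
    exact hx0.trans_lt he3
  have hPN' : dist w z / 2 ≤ dist (X n) z := by
    rw [hXN]
    have h1 := dist_triangle w (x (Fin.last n)) z
    have h2 := dist_comm w (x (Fin.last n))
    linarith
  have hPN : ¬ dist (X n) z < η := by
    intro h
    linarith
  obtain ⟨j, hj, hPj, hPi⟩ := last_index (P := fun i => dist (X i) z < η) hP0 hPN
  have hcomp : ∀ i, j < i → i ≤ n →
      connectedComponentIn Kᶜ (X (j + 1)) = connectedComponentIn Kᶜ (X i) := by
    intro i hi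
    induction i, hi using Nat.le_induction with
    | base => intro _; rfl
    | succ i hi ih =>
      intro hin
      rw [ih (by omega)]
      refine comp_eq hmη (away i (not_lt.1 (hPi i hi (by omega)))) ?_
      exact (hXs i (by omega)).trans_lt he2
  have hjmem : X (j + 1) ∈ Kᶜ :=
    away (j + 1) (not_lt.1 (hPi (j + 1) (by omega) (by omega))) (mem_ball_self hmη)
  have hlast : connectedComponentIn Kᶜ (X n) = connectedComponentIn Kᶜ w := by
    refine comp_eq hmη (away n (not_lt.1 hPN)) ?_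
    rw [hXN]
    exact hxN.trans_lt he2
  refine ⟨X (j + 1), ?_, ?_⟩
  · have h1 := dist_triangle (X (j + 1)) (X j) z
    have h2 := hXs j hj
    rw [dist_comm] at h2
    linarith
  · rw [hKc, ← hlast, ← hcomp n hj le_rfl]
    exact mem_connectedComponentIn hjmem

theorem geK {U : Set ℂ} {M R : ℝ} {B : ℕ} {N : ℕ → ℕ} {w : ℂ} {f : NonemptyCompacts ℂ} {z : ℂ}
    (hwf : w ∉ (f : Set ℂ)) (hM : 0 < M)
    (hQ : ∀ k : ℕ, (f, z) ∈ QK Uᶜ M R (1 / ((k : ℝ) + 1)) B (N k) w) :
    z ∈ Lb U (f : Set ℂ) w := by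
  have hz : z ∈ (f : Set ℂ) := by
    have h1 : infDist z (f : Set ℂ) ≤ 0 := by
      apply le_of_forall_pos_le_add
      intro ε hε
      obtain ⟨k, hk⟩ := exists_nat_one_div_lt hε
      obtain ⟨-, hs, -⟩ := hQ k
      have hs' : infDist z (f : Set ℂ) ≤ 1 / ((k : ℝ) + 1) := hs
      linarith
    exact (f.isCompact.isClosed.mem_iff_infDist_zero f.nonempty).2
      (le_antisymm h1 infDist_nonneg)
  have hwz : w ≠ z := fun h => hwf (h ▸ hz)
  have hκ : 0 < dist w z := dist_pos.2 hwz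
  refine ⟨hz, ?_⟩
  rw [Metric.mem_closure_iff]
  intro ε hε
  obtain ⟨v, hv1, hv2⟩ := stepK hM hwz hQ
    (lt_min (by linarith : (0 : ℝ) < dist w z / 4) (by positivity : (0 : ℝ) < ε / 4))
    (min_le_left _ _)
  have h3 : min (dist w z / 4) (ε / 4) ≤ ε / 4 := min_le_right _ _
  refine ⟨v, hv2, ?_⟩
  rw [dist_comm]
  linarith

end Run7.h561.CC
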