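import Pool.Agent.Run7.h561.CC.Q_LG
import Pool.Agent.Run7.h561.CC.Q_QC
import Pool.Agent.Run7.h561.EC.P_H4

/-! # One ray: rich vertices make the approximate set good -/

set_option autoImplicit false
set_option maxHeartbeats 400000

namespace Run7.h561.CC

open H974 H12S Finset H984N TopologicalSpace Run7.h561 Run7.h561.EC
open Pool.Agent.H389R2.Dim Pool.Agent.W822.PD
open Pool.Agent.TH990.FU (zp)

/-- The scaled position of the vertex number `v` of the box at `q`. -/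
noncomputable def Pq (δ : ℝ) (o : ℂ) (q v : Vtx) : ℂ := zp δ o (shv q v)

theorem Pq_zc (δ : ℝ) (o : ℂ) (q v : Vtx) : Pq δ o q v = zc 0 δ (shv q v) + ⟨o.re, o.im - δ⟩ := by
  unfold Pq zp zc
  apply Complex.ext
  · simp only [Complex.add_re]; ring
  · simp only [Complex.add_im]; ring

theorem sd_shv (q u v : Vtx) : sd (shv q u) (shv q v) = sd u v := by
  unfold sd shv
  simp only [add_sub_add_right_eq_sub]

theorem Pq_le {δ : ℝ} (hδ : 0 ≤ δ) (o : ℂ) (q u v : Vtx) :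
    dist (Pq δ o q u) (Pq δ o q v) ≤ 2 * (δ * ((sd u v : ℤ) : ℝ)) := by
  rw [Pq_zc, Pq_zc, dist_add_right, ← sd_shv q u v]
  exact zc_le hδ _ _

theorem Pq_ge {δ : ℝ} (hδ : 0 ≤ δ) (o : ℂ) (q u v : Vtx) :
    δ * ((sd u v : ℤ) : ℝ) ≤ dist (Pq δ o q u) (Pq δ o q v) := by
  rw [Pq_zc, Pq_zc, dist_add_right, ← sd_shv q u v]
  exact zc_dist hδ _ _

theorem Pq_inj {δ : ℝ} (hδ : 0 < δ) (o : ℂ) (q : Vtx) : Function.Injective (Pq δ o q) := by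
  intro u v h
  rw [Pq_zc, Pq_zc] at h
  exact shv_inj (zc_inj hδ (add_right_cancel h))

theorem Pq_U {δ r : ℝ} {o : ℂ} {q : Vtx} {N : ℕ} {w' : ℂ} (hδ : 0 < δ)
    (h1 : w'.re - r ≤ o.re + δ * q.1) (h2 : o.re + δ * ((N : ℝ) + q.1) ≤ w'.re + r)
    (h3 : w'.im - r ≤ o.im + δ * q.2) (h4 : o.im + δ * ((N : ℝ) + q.2) ≤ w'.im + r)
    (x : Vtx) (hx : inR 0 N 0 N x) (y : ℂ) (hy : y ∉ Sq r w') :
    ∃ c ∈ FrB N, δ * ((sd x c : ℤ) : ℝ) ≤ dist (Pq δ o q x) y := by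
  obtain ⟨c, hc, h⟩ := geo_U (κ := 0) (q := q) (w' := w' - ⟨o.re, o.im - δ⟩) (r := r) (N := N) hδ
    (by simp only [Complex.sub_re, add_zero]; linarith)
    (by simp only [Complex.sub_re, add_zero]; linarith)
    (by simp only [Complex.sub_im, add_zero]; linarith)
    (by simp only [Complex.sub_im, add_zero]; linarith) x hx (y - ⟨o.re, o.im - δ⟩)
    (by
      intro hcon
      apply hy
      unfold Run7.h561.EC.Sq at hcon ⊢
      simp only [Set.mem_setOf_eq, Complex.sub_re, Complex.sub_im] at hcon ⊢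
      rwa [sub_sub_sub_cancel_right, sub_sub_sub_cancel_right] at hcon)
  refine ⟨c, hc, h.trans (le_of_eq ?_)⟩
  rw [Pq_zc, ← dist_add_right (zc 0 δ (shv q x)) (y - ⟨o.re, o.im - δ⟩) ⟨o.re, o.im - δ⟩,
    sub_add_cancel]

theorem Pq_R {δ r : ℝ} {o : ℂ} {q : Vtx} {N : ℕ} {w' : ℂ} (hδ : 0 < δ)
    (h1 : w'.re - r ≤ o.re + δ * q.1) (h2 : o.re + δ * ((N : ℝ) + q.1) ≤ w'.re + r)
    (h3 : w'.im - r ≤ o.im + δ * q.2) (h4 : o.im + δ * ((N : ℝ) + q.2) ≤ w'.im + r)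
    (x : Vtx) (hx : inR 0 N 0 N x) : ‖Pq δ o q x‖ ≤ ‖w'‖ + 2 * r := by
  unfold inR at hx
  have x1 : (0 : ℝ) ≤ x.1 := by exact_mod_cast hx.1.1
  have x2 : (x.1 : ℝ) ≤ N := by exact_mod_cast hx.1.2
  have x3 : (0 : ℝ) ≤ x.2 := by exact_mod_cast hx.2.1
  have x4 : (x.2 : ℝ) ≤ N := by exact_mod_cast hx.2.2
  have m1 := mul_nonneg hδ.le x1
  have m2 := mul_le_mul_of_nonneg_left x2 hδ.le
  have m3 := mul_nonneg hδ.le x3
  have m4 := mul_le_mul_of_nonneg_left x4 hδ.le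
  have er : (Pq δ o q x).re = o.re + δ * x.1 + δ * q.1 := by
    simp only [Pq, zp, shv]; push_cast; ring
  have ei : (Pq δ o q x).im = o.im + δ * x.2 + δ * q.2 := by
    simp only [Pq, zp, shv]; push_cast; ring
  have h5 : dist (Pq δ o q x) w' ≤ r + r := by
    apply H984N.ML.dist_le_of
    · rw [er, abs_le]; constructor <;> linarith
    · rw [ei, abs_le]; constructor <;> linarith
  have h6 : ‖Pq δ o q x‖ ≤ ‖w'‖ + dist (Pq δ o q x) w' := by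
    rw [dist_eq_norm]
    have := norm_add_le w' (Pq δ o q x - w')
    rwa [add_sub_cancel] at this
  linarith

/-- Rich vertices give points of the approximate sets. -/
theorem mem_QK {K : NonemptyCompacts ℂ} {δ : ℝ} (hδ : 0 < δ) {P : Vtx → ℂ}
    (hP1 : ∀ u v, dist (P u) (P v) ≤ 2 * (δ * ((sd u v : ℤ) : ℝ)))
    (hP2 : ∀ u v, δ * ((sd u v : ℤ) : ℝ) ≤ dist (P u) (P v)) {A : Set Vtx}
    (hAK : ∀ u ∈ A, ∃ z ∈ K, dist z (P u) ≤ δ) (hKA : ∀ z ∈ K, ∃ u ∈ A, dist z (P u) ≤ δ)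
    {N : ℕ} {w : Vtx} {M B : ℕ} (hB : 1 ≤ B)
    {U : Set ℂ} (hU : ∀ x, inR 0 N 0 N x → ∀ y ∉ U, ∃ c ∈ FrB N,
      δ * ((sd x c : ℤ) : ℝ) ≤ dist (P x) y)
    {v x0 : Vtx} (hv : v ∈ A) (hvR : inR 0 N 0 N v) (hx0 : sd x0 v ≤ 2) (hne : x0 ≠ w)
    (hr : Reach {e | ClB M B N A v (src e) ∧ ClB M B N A v (tgt e)} x0 w)
    {M' R0 e : ℝ} {w' : ℂ} (hM' : 0 ≤ M') (h : 2 ^ B * M * (δ * N) ^ (B - 1) ≤ M')
    (he : 8 * δ ≤ e) (he' : 2 * M' * δ ≤ e) (hR : ∀ x, inR 0 N 0 N x → ‖P x‖ ≤ R0)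
    (hw : dist (P w) w' ≤ e) {NN : ℕ}
    (hN : ∀ (S : Set ℂ) (a b : ℂ), (∀ x ∈ S, ‖x‖ ≤ R0) →
      a ∈ S → Relation.ReflTransGen (fun x y => y ∈ S ∧ dist x y ≤ e) a b →
      ∃ x : Fin (NN + 1) → ℂ, (∀ i, x i ∈ S) ∧ x 0 = a ∧ x (Fin.last NN) = b ∧
      ∀ i : Fin NN, dist (x i.castSucc) (x i.succ) ≤ e) :
    (K, P v) ∈ QK Uᶜ M' R0 e B NN w' := by
  have hbox : ∀ u, ClB M B N A v u → inR 0 N 0 N u := by
    intro u hu
    by_cases hF : u ∈ FrB N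
    · rw [ClB_self hB hu (Or.inr hF)]
      exact hvR
    · have := not_FrB hF
      unfold inR
      omega
  have hstart : ClB M B N A v x0 := by
    rcases Relation.ReflTransGen.cases_head hr with h1 | ⟨c, ⟨g, ⟨h2, h3⟩, h4⟩, -⟩
    · exact absurd h1 hne
    · rcases h4 with ⟨h6, h7⟩ | ⟨h6, h7⟩
      · rw [← h6]; exact h2
      · rw [← h7]; exact h3
  have hbd : ∀ z ∈ SB P M B N A v, ‖z‖ ≤ R0 := by
    rintro z ⟨u, hu, rfl⟩
    exact hR u (hbox u hu)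
  obtain ⟨X, h1, h2, h3, h4⟩ := hN (SB P M B N A v) (P x0) (P w) hbd ⟨x0, hstart, rfl⟩
    (chainB hP1 hδ.le (by linarith) hr)
  obtain ⟨b, rfl⟩ : ∃ b, B = b + 1 := ⟨B - 1, by omega⟩
  simp only [Nat.add_sub_cancel] at h
  -- the main estimate
  have main : ∀ u : Vtx, ∀ c ∈ A ∪ FrB N, ClB M (b + 1) N A v u → ∀ D : ℝ,
      δ * ((sd u c : ℤ) : ℝ) ≤ D → dist (P u) (P v) ^ (b + 1) ≤ M' * D := by
    intro u c hcA hu D hD
    have g1 := hu c hcA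
    simp only [Nat.add_sub_cancel] at g1
    have g1' : (((sd u v : ℤ) : ℝ)) ^ (b + 1) ≤ (M : ℝ) * (N : ℝ) ^ b * ((sd u c : ℤ) : ℝ) := by
      exact_mod_cast g1
    have g0 : (0:ℝ) ≤ ((sd u v : ℤ) : ℝ) := by exact_mod_cast sd_nonneg u v
    have g0' : (0:ℝ) ≤ ((sd u c : ℤ) : ℝ) := by exact_mod_cast sd_nonneg u c
    have g2 : dist (P u) (P v) ^ (b + 1) ≤ (2 * (δ * ((sd u v : ℤ) : ℝ))) ^ (b + 1) :=
      pow_le_pow_left₀ dist_nonneg (hP1 _ _) _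
    have g4 : (2 * (δ * ((sd u v : ℤ) : ℝ))) ^ (b + 1) =
        2 ^ (b + 1) * δ ^ (b + 1) * ((sd u v : ℤ) : ℝ) ^ (b + 1) := by
      rw [mul_pow, mul_pow]; ring
    have g5 : 2 ^ (b + 1) * δ ^ (b + 1) * ((sd u v : ℤ) : ℝ) ^ (b + 1) ≤
        2 ^ (b + 1) * δ ^ (b + 1) * ((M : ℝ) * (N : ℝ) ^ b * ((sd u c : ℤ) : ℝ)) :=
      mul_le_mul_of_nonneg_left g1' (by positivity)
    have g6 : 2 ^ (b + 1) * δ ^ (b + 1) * ((M : ℝ) * (N : ℝ) ^ b * ((sd u c : ℤ) : ℝ)) =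
        (2 ^ (b + 1) * M * (δ * N) ^ b) * (δ * ((sd u c : ℤ) : ℝ)) := by
      rw [mul_pow δ]; ring
    have g7 : 0 ≤ δ * ((sd u c : ℤ) : ℝ) := by positivity
    calc dist (P u) (P v) ^ (b + 1) ≤ _ := g2
      _ = _ := g4
      _ ≤ _ := g5
      _ = _ := g6
      _ ≤ M' * (δ * ((sd u c : ℤ) : ℝ)) := mul_le_mul_of_nonneg_right h g7
      _ ≤ M' * D := mul_le_mul_of_nonneg_left hD hM'
  refine ⟨?_, ?_, X, fun i => hbd _ (h1 i), ?_, ?_, h4, ?_, ?_⟩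
  · exact hR v hvR
  · obtain ⟨z, hz, hz2⟩ := hAK v hv
    show Metric.infDist (P v) (K : Set ℂ) ≤ e
    refine (Metric.infDist_le_dist_of_mem (x := P v) hz).trans ?_
    rw [dist_comm]
    linarith
  · show dist (X 0) (P v) ≤ e
    rw [h2]
    have g2 := hP1 x0 v
    have g3 : δ * ((sd x0 v : ℤ) : ℝ) ≤ δ * 2 :=
      mul_le_mul_of_nonneg_left (by exact_mod_cast hx0) hδ.le
    linarith
  · show dist (X (Fin.last NN)) w' ≤ e
    rw [h3]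
    exact hw
  · intro i
    show dist (X i) (P v) ^ (b + 1) ≤ M' * Metric.infDist (X i) (K : Set ℂ) + e
    obtain ⟨u, hu, hz⟩ := h1 i
    rw [hz]
    obtain ⟨y, hy, hy2⟩ := K.isCompact.exists_infDist_eq_dist K.nonempty (P u)
    obtain ⟨c, hc, hc2⟩ := hKA y hy
    have g1 := main u c (Or.inl hc) hu (dist (P u) y + δ) (by
      refine (hP2 _ _).trans ?_
      have t1 := dist_triangle (P u) y (P c)
      linarith)
    rw [hy2]
    have : M' * δ ≤ 2 * M' * δ := by nlinarith [mul_nonneg hM' hδ.le]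
    linarith
  · intro i y hy
    show dist (X i) (P v) ^ (b + 1) ≤ M' * dist (X i) y + e
    obtain ⟨u, hu, hz⟩ := h1 i
    rw [hz]
    obtain ⟨c, hc1, hc2⟩ := hU u (hbox u hu) y hy
    have g1 := main u c (Or.inr hc1) hu _ hc2
    have : 0 ≤ e := by linarith
    linarith

/-- The vertex below `w'`, and the lower left corner of the box. -/
noncomputable def vw (δ : ℝ) (o w' : ℂ) : Vtx := (⌊(w'.re - o.re) / δ⌋, ⌊(w'.im - o.im) / δ⌋)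
noncomputable def qw (δ : ℝ) (o w' : ℂ) (H : ℝ) : Vtx :=
  ((vw δ o w').1 - bn H δ, (vw δ o w').2 - bn H δ)

theorem vw_bd {δ : ℝ} (hδ : 0 < δ) (o w' : ℂ) :
    (o.re + δ * ((vw δ o w').1 : ℝ) ≤ w'.re ∧ w'.re < o.re + δ * ((vw δ o w').1 : ℝ) + δ) ∧
    o.im + δ * ((vw δ o w').2 : ℝ) ≤ w'.im ∧ w'.im < o.im + δ * ((vw δ o w').2 : ℝ) + δ := by
  have a1 := Int.floor_le ((w'.re - o.re) / δ)
  have a2 := Int.lt_floor_add_one ((w'.re - o.re) / δ)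
  have a3 := Int.floor_le ((w'.im - o.im) / δ)
  have a4 := Int.lt_floor_add_one ((w'.im - o.im) / δ)
  rw [le_div_iff₀ hδ] at a1 a3
  rw [div_lt_iff₀ hδ] at a2 a4
  unfold vw
  refine ⟨⟨by simp only; linarith, by simp only; linarith⟩, by simp only; linarith,
    by simp only; linarith⟩

theorem bn_bd {H δ : ℝ} (hδ : 0 < δ) (hx : 100 ≤ 4 * H / δ) :
    δ * (bn H δ : ℝ) ≤ 4 * H - 3 * δ ∧ 4 * H - 4 * δ < δ * (bn H δ : ℝ) ∧
      (96 : ℝ) ≤ (bn H δ : ℝ) := by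
  have hfl := Nat.floor_le (show 0 ≤ 4 * H / δ by linarith)
  have hfl2 := Nat.lt_floor_add_one (4 * H / δ)
  have hnn : bn H δ + 3 = ⌊4 * H / δ⌋₊ := by
    unfold bn
    have : 3 ≤ ⌊4 * H / δ⌋₊ := by
      apply Nat.le_floor
      push_cast
      linarith
    omega
  rw [← hnn] at hfl hfl2
  push_cast at hfl hfl2
  refine ⟨?_, ?_, by linarith⟩
  · rw [le_div_iff₀ hδ] at hfl
    linarith
  · rw [div_lt_iff₀ hδ] at hfl2
    linarith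

/-- **One ray.** -/
theorem coreK {K : NonemptyCompacts ℂ} {δ : ℝ} (hδ : 0 < δ) {o : ℂ} {d : ℤ × ℤ}
    {H η t : ℝ} (hH : 0 < H) (ht : 0 < t) {w' : ℂ} (hfar : ∀ z ∈ K, η < dist w' z)
    {S : Set Vtx} (hSK : ∀ u ∈ S, ∃ z ∈ K, dist z (zp δ o u) ≤ δ)
    (hKS : ∀ z ∈ K, ∃ u ∈ S, dist z (zp δ o u) ≤ δ) {F2 : Set Edg}
    (hadm : Adm0 (2 * bn H δ) F2 {v | shv (qw δ o w' H) v ∈ S})
    (hray : ∃ z, shv (qw δ o w' H) z ∈ S ∧ OnRay d ⌈H / δ⌉₊ ((bn H δ : ℤ), (bn H δ : ℤ)) z)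
    {M B : ℕ} {lam E δ1 ε' : ℝ} (hB : 1 ≤ B)
    (hbad : ¬ BadR d t lam E (⌈H / δ⌉₊ + 1 / 8 * ((2 * bn H δ : ℕ) : ℝ))
      (δ1 * ((2 * bn H δ : ℕ) : ℝ)) M B (2 * bn H δ) ⌈H / δ⌉₊ ((bn H δ : ℤ), (bn H δ : ℤ)) F2)
    (hlam : 0 < lam) (hE : 0 < E) (hδ1 : 0 < δ1) (hδ1b : 32 * H * δ1 ≤ η)
    (hx1 : 100 ≤ 4 * H / δ) (hδη : 8 * δ ≤ η)
    (hε1 : 8 * δ ≤ ε') (hε2 : 2 * (2 ^ B * M * (8 * H) ^ (B - 1)) * δ ≤ ε') {NN : ℕ → ℕ}
    (hNN : ∀ (k : ℕ) (S : Set ℂ) (a b : ℂ), (∀ x ∈ S, ‖x‖ ≤ ‖w'‖ + 2 * (4 * H)) →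
      a ∈ S → Relation.ReflTransGen (fun x y => y ∈ S ∧ dist x y ≤ 1 / ((k : ℝ) + 1)) a b →
      ∃ x : Fin (NN k + 1) → ℂ, (∀ i, x i ∈ S) ∧ x 0 = a ∧ x (Fin.last (NN k)) = b ∧
      ∀ i : Fin (NN k), dist (x i.castSucc) (x i.succ) ≤ 1 / ((k : ℝ) + 1)) :
    Good t ε' (2 ^ (-t) / (E / lam ^ 2 * (4 * H) ^ (-t)))
      (AA (Metric.closedBall (0 : ℂ) (‖w'‖ + 2 * (4 * H)))
        (fun k => QK (Sq (4 * H) w')ᶜ (2 ^ B * M * (8 * H) ^ (B - 1))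
          (‖w'‖ + 2 * (4 * H)) (1 / ((k : ℝ) + 1)) B (NN k) w') ε' K) := by
  obtain ⟨hnu, hnl, hn96⟩ := bn_bd (H := H) hδ hx1
  obtain ⟨⟨vr1, vr2⟩, vi1, vi2⟩ := vw_bd hδ o w'
  set n : ℕ := bn H δ with hn
  have hn96' : 96 ≤ n := by exact_mod_cast hn96
  set H' : ℕ := ⌈H / δ⌉₊ with hH'
  have hH2 : (H' : ℝ) < H / δ + 1 := Nat.ceil_lt_add_one (by positivity)
  have hH4 : (H' : ℝ) ≤ n / 4 + 2 := by
    have h1 : δ * (H' : ℝ) < H + δ := by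
      have := mul_lt_mul_of_pos_left hH2 hδ
      rw [mul_add, mul_one, mul_div_cancel₀ _ hδ.ne'] at this
      exact this
    have h2 : δ * (H' : ℝ) ≤ δ * (n / 4 + 2) := by
      have : δ * ((n : ℝ) / 4 + 2) = δ * n / 4 + 2 * δ := by ring
      linarith
    exact le_of_mul_le_mul_left h2 hδ
  set q : Vtx := qw δ o w' H with hq
  have hq1 : (q.1 : ℝ) = (vw δ o w').1 - n := by
    rw [hq]; unfold qw; push_cast; rfl
  have hq2 : (q.2 : ℝ) = (vw δ o w').2 - n := by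
    rw [hq]; unfold qw; push_cast; rfl
  set w : Vtx := ((n : ℤ), (n : ℤ)) with hw
  have hwr : ((w.1 : ℤ) : ℝ) = n ∧ ((w.2 : ℤ) : ℝ) = n := ⟨by simp [hw], by simp [hw]⟩
  have hw0 : shv q w = vw δ o w' := by
    unfold shv
    rw [hq]
    unfold qw
    ext
    · simp only [hw]; omega
    · simp only [hw]; omega
  have zd : dist (Pq δ o q w) w' ≤ 2 * δ := by
    have h1 : dist (Pq δ o q w) w' ≤ δ + δ := by
      apply H984N.ML.dist_le_of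
      · unfold Pq zp; rw [hw0]; simp only; rw [abs_le]; constructor <;> linarith
      · unfold Pq zp; rw [hw0]; simp only; rw [abs_le]; constructor <;> linarith
    linarith
  set A : Set Vtx := {v | shv q v ∈ S} with hA
  have hAK : ∀ u ∈ A, ∃ z ∈ K, dist z (Pq δ o q u) ≤ δ := fun u hu => hSK _ hu
  have hKA : ∀ z ∈ K, ∃ u ∈ A, dist z (Pq δ o q u) ≤ δ := by
    intro z hz
    obtain ⟨u, hu, hu2⟩ := hKS z hz
    refine ⟨rel q u, ?_, ?_⟩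
    · show shv q (rel q u) ∈ S
      rwa [shv_rel]
    · unfold Pq
      rwa [shv_rel]
  have hη0 : 0 < η := by linarith
  have hfarA : ∀ c ∈ A, η / 4 ≤ δ * ((sd c w : ℤ) : ℝ) := by
    intro c hc
    obtain ⟨z, hz, hz2⟩ := hAK c hc
    have h1 := hfar z hz
    have h2 := Pq_le hδ.le o q c w
    have h3 := dist_triangle w' (Pq δ o q w) z
    have h4 := dist_triangle (Pq δ o q w) (Pq δ o q c) z
    rw [dist_comm w' (Pq δ o q w)] at h3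
    rw [dist_comm (Pq δ o q w) (Pq δ o q c), dist_comm (Pq δ o q c) z] at h4
    linarith
  have hD : ∀ c ∈ A, δ1 * ((2 * n : ℕ) : ℝ) ≤ ((sd c w : ℤ) : ℝ) := by
    intro c hc
    have h1 := hfarA c hc
    have h2 : δ * (δ1 * ((2 * n : ℕ) : ℝ)) ≤ η / 4 := by
      push_cast
      have e1 : δ1 * (δ * n) ≤ δ1 * (4 * H) := mul_le_mul_of_nonneg_left (by linarith) hδ1.le
      have e2 : δ * (δ1 * (2 * (n : ℝ))) = 2 * (δ1 * (δ * n)) := by ring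
      rw [e2]
      linarith
    exact le_of_mul_le_mul_left (h2.trans h1) hδ
  have hrich : RichB t lam E (H' + 1 / 8 * ((2 * n : ℕ) : ℝ)) M B (2 * n) A w := by
    by_contra hcon
    obtain ⟨z, hz, hz2⟩ := hray
    exact hbad ⟨A, hadm, hD, ⟨z, hz, hz2⟩, hcon⟩
  have hKn : (H' : ℝ) + 1 / 8 * ((2 * n : ℕ) : ℝ) + 5 ≤ n := by
    push_cast
    linarith
  set M' : ℝ := 2 ^ B * M * (8 * H) ^ (B - 1) with hM'def
  have hM'0 : 0 ≤ M' := by positivity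
  have hM' : 2 ^ B * (M : ℝ) * (δ * ((2 * n : ℕ) : ℝ)) ^ (B - 1) ≤ M' := by
    refine mul_le_mul_of_nonneg_left ?_ (by positivity)
    refine pow_le_pow_left₀ (by positivity) ?_ _
    push_cast
    linarith
  have g1 : w'.re - 4 * H ≤ o.re + δ * q.1 := by rw [hq1]; linarith
  have g2 : o.re + δ * (((2 * n : ℕ) : ℝ) + q.1) ≤ w'.re + 4 * H := by
    rw [hq1]; push_cast; linarith
  have g3 : w'.im - 4 * H ≤ o.im + δ * q.2 := by rw [hq2]; linarith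
  have g4 : o.im + δ * (((2 * n : ℕ) : ℝ) + q.2) ≤ w'.im + 4 * H := by
    rw [hq2]; push_cast; linarith
  obtain ⟨V, c1, c2, c3⟩ := hrich
  refine good_V hδ (Pq_inj hδ o q) (Pq_ge hδ.le o q) (N := 2 * n) (by omega) c1 c2 hlam hE ht ?_
    (by linarith) (by positivity) ?_
  · intro v hv
    obtain ⟨a1, a2, x, a3, a4⟩ := c3 v hv
    have h5 := sd_le.1 (le_refl (sd v w))
    have b1 : (w.1 : ℝ) - sd v w ≤ v.1 := by exact_mod_cast (by omega : w.1 - sd v w ≤ v.1)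
    have b2 : (v.1 : ℝ) ≤ w.1 + sd v w := by exact_mod_cast (by omega : v.1 ≤ w.1 + sd v w)
    have b3 : (w.2 : ℝ) - sd v w ≤ v.2 := by exact_mod_cast (by omega : w.2 - sd v w ≤ v.2)
    have b4 : (v.2 : ℝ) ≤ w.2 + sd v w := by exact_mod_cast (by omega : v.2 ≤ w.2 + sd v w)
    rw [hwr.1] at b1 b2
    rw [hwr.2] at b3 b4
    have v1 : 0 ≤ v.1 := by
      have : (0 : ℝ) ≤ v.1 := by linarith
      exact_mod_cast this
    have v2 : v.1 ≤ ((2 * n : ℕ) : ℤ) := by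
      have : (v.1 : ℝ) ≤ ((2 * n : ℕ) : ℝ) := by push_cast; linarith
      exact_mod_cast this
    have v3 : 0 ≤ v.2 := by
      have : (0 : ℝ) ≤ v.2 := by linarith
      exact_mod_cast this
    have v4 : v.2 ≤ ((2 * n : ℕ) : ℤ) := by
      have : (v.2 : ℝ) ≤ ((2 * n : ℕ) : ℝ) := by push_cast; linarith
      exact_mod_cast this
    have hvR : inR 0 ((2 * n : ℕ) : ℤ) 0 ((2 * n : ℕ) : ℤ) v := ⟨⟨v1, v2⟩, v3, v4⟩
    refine ⟨?_, fun k hk => ?_⟩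
    · rw [mem_closedBall_zero_iff]
      exact Pq_R hδ g1 g2 g3 g4 v hvR
    · have hxw : x ≠ w := by
        intro hxe
        rw [hxe, sd_comm] at a3
        have h7 : δ * ((sd v w : ℤ) : ℝ) ≤ δ * 2 :=
          mul_le_mul_of_nonneg_left (by exact_mod_cast a3) hδ.le
        obtain ⟨z, hz, hz2⟩ := hAK v a1
        have k1 := hfar z hz
        have k2 := Pq_le hδ.le o q v w
        have k3 := dist_triangle w' (Pq δ o q w) z
        have k4 := dist_triangle (Pq δ o q w) (Pq δ o q v) z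
        rw [dist_comm w' (Pq δ o q w)] at k3
        rw [dist_comm (Pq δ o q w) (Pq δ o q v), dist_comm (Pq δ o q v) z] at k4
        linarith
      exact mem_QK hδ (Pq_le hδ.le o q) (Pq_ge hδ.le o q) hAK hKA hB (Pq_U hδ g1 g2 g3 g4) a1 hvR
        a3 hxw a4 hM'0 hM' (hε1.trans hk) (hε2.trans hk) (Pq_R hδ g1 g2 g3 g4)
        (zd.trans (by linarith)) (hNN k)
  · push_cast
    have h100 : 100 * δ ≤ 4 * H := by rwa [le_div_iff₀ hδ] at hx1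
    linarith

end Run7.h561.CC
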