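import Pool.Agent.Run7.h561.CC.Stm
import Pool.Agent.H389R2.Dim.Lower

/-! # Passage to the limit for collections of compact sets -/

set_option autoImplicit false

namespace Run7.h561.CC

open Set Filter Topology Metric Pool.Agent.H389R2.Dim MeasureTheory TopologicalSpace
open scoped ENNReal NNReal

section gen

variable {Y : Type*} [TopologicalSpace Y]

/-- The approximate sets. -/
def AA (K : Set ℂ) (Q : ℕ → Set (Y × ℂ)) (e : ℝ) (f : Y) : Set ℂ :=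
  {z | z ∈ K ∧ ∀ k : ℕ, e ≤ 1 / ((k : ℝ) + 1) → (f, z) ∈ Q k}

theorem AA_mono {K : Set ℂ} {Q : ℕ → Set (Y × ℂ)} {e e' : ℝ} (h : e ≤ e')
    (f : Y) : AA K Q e f ⊆ AA K Q e' f := by
  rintro z ⟨hz, h1⟩
  exact ⟨hz, fun k hk => h1 k (h.trans hk)⟩

/-- The closed condition. -/
def Cnd (K : Set ℂ) (Q : ℕ → Set (Y × ℂ)) (e : ℝ) : Set (Y × K) :=
  {p | ∀ k : ℕ, e ≤ 1 / ((k : ℝ) + 1) → (p.1, (p.2 : ℂ)) ∈ Q k}

theorem closed_cnd {K : Set ℂ} {Q : ℕ → Set (Y × ℂ)}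
    (hQ : ∀ k, IsClosed (Q k)) (e : ℝ) : IsClosed (Cnd K Q e) := by
  have h : Cnd K Q e = ⋂ (k : ℕ) (_ : e ≤ 1 / ((k : ℝ) + 1)),
      (fun p : Y × K => (p.1, (p.2 : ℂ))) ⁻¹' Q k := by
    ext p
    simp only [Cnd, mem_ofPred_eq, mem_iInter, mem_preimage]
  rw [h]
  refine isClosed_iInter fun k => isClosed_iInter fun _ => (hQ k).preimage ?_
  exact continuous_fst.prodMk (continuous_subtype_val.comp continuous_snd)

/-- Upper semicontinuity. -/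
theorem isOpen_AA_sub {K O : Set ℂ} {Q : ℕ → Set (Y × ℂ)}
    (hQ : ∀ k, IsClosed (Q k)) {e : ℝ} (hK : IsCompact K) (hO : IsOpen O) :
    IsOpen {f : Y | AA K Q e f ⊆ O} := by
  have hK' : IsCompact (K \ O) := hK.diff hO
  have : CompactSpace ↥(K \ O) := isCompact_iff_compactSpace.1 hK'
  have h1 := closed_cnd (K := K \ O) hQ e
  have h2 := isClosedMap_fst_of_compactSpace _ h1
  have h3 : {f : Y | AA K Q e f ⊆ O}ᶜ = Prod.fst '' Cnd (K \ O) Q e := by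
    ext f
    simp only [mem_compl_iff, mem_ofPred_eq, not_subset, mem_image, Prod.exists]
    constructor
    · rintro ⟨z, ⟨hz, h4⟩, hzO⟩
      exact ⟨f, ⟨z, hz, hzO⟩, h4, rfl⟩
    · rintro ⟨g, ⟨z, hz, hzO⟩, h4, rfl⟩
      exact ⟨z, ⟨hz, h4⟩, hzO⟩
  rw [← isClosed_compl_iff, h3]
  exact h2

theorem isClosed_good_AA {t δ c e : ℝ} {K : Set ℂ} {Q : ℕ → Set (Y × ℂ)}
    (hQ : ∀ k, IsClosed (Q k)) (hK : IsCompact K) :
    IsClosed {f : Y | Good t δ c (AA K Q e f)} := by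
  have h : {f : Y | Good t δ c (AA K Q e f)} =
      ⋂ s : Finset (ℂ × ℝ), {f : Y | (∀ p ∈ s, δ ≤ p.2) →
        AA K Q e f ⊆ ⋃ p ∈ s, ball p.1 p.2 → c ≤ ∑ p ∈ s, p.2 ^ t} := by
    ext K; simp [Good]
  rw [h]
  apply isClosed_iInter
  intro s
  by_cases h1 : (∀ p ∈ s, δ ≤ p.2) ∧ ¬ c ≤ ∑ p ∈ s, p.2 ^ t
  · have h2 : {f : Y | (∀ p ∈ s, δ ≤ p.2) →
        AA K Q e f ⊆ ⋃ p ∈ s, ball p.1 p.2 → c ≤ ∑ p ∈ s, p.2 ^ t} =
        {f : Y | AA K Q e f ⊆ ⋃ p ∈ s, ball p.1 p.2}ᶜ := by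
      ext K
      simp only [Set.mem_ofPred_eq, Set.mem_compl_iff]
      constructor
      · intro h3 h4; exact h1.2 (h3 h1.1 h4)
      · intro h3 _ h4; exact absurd h4 h3
    rw [h2]
    exact (isOpen_AA_sub hQ hK (isOpen_biUnion fun p _ => isOpen_ball)).isClosed_compl
  · have h2 : {f : Y | (∀ p ∈ s, δ ≤ p.2) →
        AA K Q e f ⊆ ⋃ p ∈ s, ball p.1 p.2 → c ≤ ∑ p ∈ s, p.2 ^ t} = univ := by
      ext K
      simp only [Set.mem_ofPred_eq, Set.mem_univ, iff_true]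
      intro h3 _
      by_contra h4
      exact h1 ⟨h3, h4⟩
    rw [h2]; exact isClosed_univ

theorem isCompact_AA {e : ℝ} {K : Set ℂ} {Q : ℕ → Set (Y × ℂ)}
    (hQ : ∀ k, IsClosed (Q k)) (hK : IsCompact K) (f : Y) :
    IsCompact (AA K Q e f) := by
  have h : AA K Q e f = K ∩ ⋂ (k : ℕ) (_ : e ≤ 1 / ((k : ℝ) + 1)), (fun z : ℂ => (f, z)) ⁻¹' Q k := by
    ext z
    simp only [AA, mem_ofPred_eq, mem_inter_iff, mem_iInter, mem_preimage]
  rw [h]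
  refine hK.inter_right (isClosed_iInter fun k => isClosed_iInter fun _ => (hQ k).preimage ?_)
  exact continuous_const.prodMk continuous_id

/-- Passing to `e = 0`. -/
theorem good_zero {t δ c : ℝ} {K : Set ℂ} {Q : ℕ → Set (Y × ℂ)}
    (hQ : ∀ k, IsClosed (Q k)) (hK : IsCompact K) (f : Y)
    (h : ∀ n : ℕ, Good t δ c (AA K Q (1 / ((n : ℝ) + 1)) f)) : Good t δ c (AA K Q 0 f) := by
  intro s hs hcov
  set O : Set ℂ := ⋃ p ∈ s, ball p.1 p.2 with hOdef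
  have hO : IsOpen O := isOpen_biUnion fun p _ => isOpen_ball
  by_contra hcon
  have hne : ∀ n : ℕ, (AA (K \ O) Q (1 / ((n : ℝ) + 1)) f).Nonempty := by
    intro n
    by_contra hemp
    apply hcon
    apply h n s hs
    rintro z ⟨hz, hh⟩
    by_contra hzO
    exact hemp ⟨z, ⟨hz, hzO⟩, hh⟩
  have hK' : IsCompact (K \ O) := hK.diff hO
  have hle : ∀ n : ℕ, 1 / (((n + 1 : ℕ) : ℝ) + 1) ≤ 1 / ((n : ℝ) + 1) := fun n =>
    Nat.one_div_le_one_div (Nat.le_succ n)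
  obtain ⟨z, hz⟩ := IsCompact.nonempty_iInter_of_sequence_nonempty_isCompact_isClosed
    (fun n : ℕ => AA (K \ O) Q (1 / ((n : ℝ) + 1)) f)
    (fun n => AA_mono (hle n) f) hne (isCompact_AA hQ hK' f)
    (fun n => (isCompact_AA hQ hK' f).isClosed)
  rw [mem_iInter] at hz
  have hz0 : z ∈ AA K Q 0 f := by
    refine ⟨(hz 0).1.1, fun k _ => ?_⟩
    exact (hz k).2 k le_rfl
  exact (hz 0).1.2 (hcov hz0)

/-- Good sets at all scales give the dimension of the limit set. -/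
theorem dim_of_good {t c : ℝ} (ht : 0 < t) (hc : 0 < c) {K : Set ℂ} {Q : ℕ → Set (Y × ℂ)}
    (hQ : ∀ k, IsClosed (Q k)) (hK : IsCompact K) (f : Y) {T : Set ℂ}
    (hT : ∀ z ∈ K, (∀ k, (f, z) ∈ Q k) → z ∈ T)
    (h : ∀ n : ℕ, Good t (1 / ((n : ℝ) + 1)) c (AA K Q (1 / ((n : ℝ) + 1)) f)) :
    ENNReal.ofReal t ≤ dimH T := by
  have hT0 : AA K Q 0 f ⊆ T := by
    rintro z ⟨hz, hh⟩
    exact hT z hz (fun k => hh k (by positivity))
  have h4 : ∀ δ' : ℝ, 0 < δ' → Good t δ' c (AA K Q 0 f) := by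
    intro δ' hδ'
    apply good_zero hQ hK
    intro n
    obtain ⟨m, hm⟩ := exists_nat_one_div_lt hδ'
    have h5 := h (max n m)
    have h6 : (1 : ℝ) / (((max n m : ℕ) : ℝ) + 1) ≤ 1 / ((n : ℝ) + 1) :=
      Nat.one_div_le_one_div (le_max_left _ _)
    have h7 : (1 : ℝ) / (((max n m : ℕ) : ℝ) + 1) ≤ 1 / ((m : ℝ) + 1) :=
      Nat.one_div_le_one_div (le_max_right _ _)
    exact (h5.mono (AA_mono h6 f)).anti (h7.trans hm.le)
  exact (le_dimH_of_good ht hc (isCompact_AA hQ hK f) h4).trans (dimH_mono hT0)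

end gen

/-- The bad events are open. -/
theorem isOpen_bad {ι : Type*} (I : Finset ι) {Ev : ι → Set (NonemptyCompacts ℂ)}
    (hEv : ∀ i, IsOpen (Ev i)) {t e : ℝ} {c : ι → ℝ} {K : ι → Bool → Set ℂ}
    {Q : ι → Bool → ℕ → Set (NonemptyCompacts ℂ × ℂ)} (hK : ∀ i b, IsCompact (K i b))
    (hQ : ∀ i b k, IsClosed (Q i b k)) :
    IsOpen {𝒞 : NonemptyCompacts (NonemptyCompacts ℂ) | ∃ f ∈ 𝒞, ∃ i ∈ I, f ∈ Ev i ∧
      ∀ b, ¬ Good t e (c i) (AA (K i b) (Q i b) e f)} := by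
  have h2 : IsOpen (⋃ i ∈ I, {f : NonemptyCompacts ℂ | f ∈ Ev i ∧
      ∀ b, ¬ Good t e (c i) (AA (K i b) (Q i b) e f)}) := by
    refine isOpen_biUnion fun i _ => ?_
    have h3 : {f : NonemptyCompacts ℂ | ∀ b, ¬ Good t e (c i) (AA (K i b) (Q i b) e f)} =
        ⋂ b : Bool, {f | Good t e (c i) (AA (K i b) (Q i b) e f)}ᶜ := by
      ext f
      simp
    have h5 : IsOpen {f : NonemptyCompacts ℂ | ∀ b, ¬ Good t e (c i) (AA (K i b) (Q i b) e f)} := by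
      rw [h3]
      exact isOpen_iInter_of_finite fun b => (isClosed_good_AA (hQ i b) (hK i b)).isOpen_compl
    exact (hEv i).inter h5
  have h4 := NonemptyCompacts.isOpen_inter_nonempty_of_isOpen h2
  convert h4 using 1
  ext 𝒞
  simp only [mem_ofPred_eq, Set.Nonempty, mem_inter_iff, mem_iUnion, exists_prop]
  rfl

/-- **The passage to the limit.** `I` is a finite set of indices; each has an open event and two
target sets; apart from an event of probability `θ`, one of the targets is reached. -/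
theorem lgf {μs : ℕ → ProbabilityMeasure (NonemptyCompacts (NonemptyCompacts ℂ))}
    {μ : ProbabilityMeasure (NonemptyCompacts (NonemptyCompacts ℂ))}
    (hμ : Tendsto μs atTop (𝓝 μ)) {t : ℝ} (ht : 0 < t) {ι : Type*} (I : Finset ι)
    {Ev : ι → Set (NonemptyCompacts ℂ)} (hEv : ∀ i, IsOpen (Ev i))
    {T : ι → Bool → NonemptyCompacts ℂ → Set ℂ} {θ : ℝ≥0∞}
    (h : ∀ ε : ℝ≥0∞, 0 < ε → ∃ (c : ι → ℝ) (K : ι → Bool → Set ℂ)
      (Q : ι → Bool → ℕ → Set (NonemptyCompacts ℂ × ℂ)), (∀ i, 0 < c i) ∧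
      (∀ i b, IsCompact (K i b)) ∧ (∀ i b k, IsClosed (Q i b k)) ∧
      (∀ i ∈ I, ∀ b, ∀ f ∈ Ev i, ∀ z ∈ K i b, (∀ k, (f, z) ∈ Q i b k) → z ∈ T i b f) ∧
      ∀ ε' : ℝ, 0 < ε' → ∀ᶠ j in atTop,
        (μs j : Measure (NonemptyCompacts (NonemptyCompacts ℂ)))
          {𝒞 | ∃ f ∈ 𝒞, ∃ i ∈ I, f ∈ Ev i ∧
            ∀ b, ¬ Good t ε' (c i) (AA (K i b) (Q i b) ε' f)} ≤ θ + ε) :
    (μ : Measure (NonemptyCompacts (NonemptyCompacts ℂ)))
      {𝒞 | ∃ f ∈ 𝒞, ∃ i ∈ I, f ∈ Ev i ∧ ∀ b, ¬ ENNReal.ofReal t ≤ dimH (T i b f)} ≤ θ := by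
  apply ENNReal.le_of_forall_pos_le_add
  intro ε hε _
  obtain ⟨c, K, Q, hc, hK, hQ, hT, h1⟩ := h ε (by exact_mod_cast hε)
  set Bd : ℝ → Set (NonemptyCompacts (NonemptyCompacts ℂ)) := fun e =>
    {𝒞 | ∃ f ∈ 𝒞, ∃ i ∈ I, f ∈ Ev i ∧ ∀ b, ¬ Good t e (c i) (AA (K i b) (Q i b) e f)} with hBd
  have hopen : ∀ e : ℝ, IsOpen (Bd e) := fun e => isOpen_bad I hEv hK hQ
  have h2 : ∀ e : ℝ, 0 < e →
      (μ : Measure (NonemptyCompacts (NonemptyCompacts ℂ))) (Bd e) ≤ θ + ε := by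
    intro e he
    refine (ProbabilityMeasure.le_liminf_measure_open_of_tendsto hμ (hopen e)).trans ?_
    exact liminf_le_of_frequently_le (h1 e he).frequently
  have hmono : Monotone (fun n : ℕ => Bd (1 / ((n : ℝ) + 1))) := by
    rintro n n' hnn 𝒞 ⟨f, hf, i, hi, hE, hG⟩
    refine ⟨f, hf, i, hi, hE, fun b hG' => hG b ?_⟩
    have h3 := hG'.anti (Nat.one_div_le_one_div (α := ℝ) hnn)
    exact h3.mono (AA_mono (Nat.one_div_le_one_div hnn) f)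
  have h3 : {𝒞 : NonemptyCompacts (NonemptyCompacts ℂ) | ∃ f ∈ 𝒞, ∃ i ∈ I, f ∈ Ev i ∧
      ∀ b, ¬ ENNReal.ofReal t ≤ dimH (T i b f)} ⊆ ⋃ n : ℕ, Bd (1 / ((n : ℝ) + 1)) := by
    rintro 𝒞 ⟨f, hf, i, hi, hE, hb⟩
    have h4 : ∀ b, ∃ n : ℕ, ¬ Good t (1 / ((n : ℝ) + 1)) (c i)
        (AA (K i b) (Q i b) (1 / ((n : ℝ) + 1)) f) := by
      intro b
      by_contra hcon
      push Not at hcon
      exact hb b (dim_of_good ht (hc i) (hQ i b) (hK i b) f (hT i hi b f hE) hcon)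
    choose N hN using h4
    refine mem_iUnion.2 ⟨max (N false) (N true), f, hf, i, hi, hE, fun b hG => ?_⟩
    have h5 : N b ≤ max (N false) (N true) := by cases b <;> simp
    apply hN b
    have h6 := hG.anti (Nat.one_div_le_one_div (α := ℝ) h5)
    exact h6.mono (AA_mono (Nat.one_div_le_one_div h5) f)
  refine le_trans (measure_mono h3) ?_
  rw [hmono.measure_iUnion]
  exact iSup_le fun n => h2 _ (by positivity)

end Run7.h561.CC
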