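import Pool.Agent.Run7.h561.CC.Stm

/-! # Long thin rectangles are not crossed lengthwise; the exit of a corridor -/

set_option autoImplicit false

namespace Run7.h561.CC

set_option maxHeartbeats 400000

open H974 H12S Finset Run7.h561.EC

theorem disj_LRE {a b b' c d : ℤ} : Disjoint (LRE a b c d) (LRE b b' c d) := by
  rw [Finset.disjoint_left]
  rintro ⟨x, y, _ | _⟩ h1 h2
  · simp only [mem_LRE_false] at h1 h2; omega
  · simp only [mem_LRE_true] at h1 h2; omega

theorem hh_thin (t : ℕ) : ∀ k : ℕ, hh (1 / 2) (k * (t + 1)) t ≤ (1 / 2) ^ k := by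
  intro k
  induction k with
  | zero => simpa using hh_le_one (q := 1 / 2) (by norm_num) (by norm_num) _ _
  | succ k ih =>
    have hok : Ok (fun _ : Edg => (1 / 2 : ℝ)) := okq (by norm_num) (by norm_num)
    rcases Nat.eq_zero_or_pos k with h0 | h0
    · subst h0
      have := hh_half t (by positivity)
      simp only [zero_add, Nat.cast_one, one_mul, pow_one]
      exact this.le
    · set L : ℤ := (k : ℤ) * (t + 1) with hL
      have hL0 : 0 < L := by positivity
      have hL2 : ((k + 1 : ℕ) : ℤ) * (t + 1) = L + (t + 1) := by rw [hL]; push_cast; ring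
      rw [hL2]
      set U : Finset Edg := LRE 0 (L + (t + 1)) 0 t with hU
      have s1 : LRE 0 L 0 t ⊆ U := by
        rintro ⟨x, y, _ | _⟩ h
        · simp only [hU, mem_LRE_false] at h ⊢; omega
        · simp only [hU, mem_LRE_true] at h ⊢; omega
      have s2 : LRE L (L + (t + 1)) 0 t ⊆ U := by
        rintro ⟨x, y, _ | _⟩ h
        · simp only [hU, mem_LRE_false] at h ⊢; omega
        · simp only [hU, mem_LRE_true] at h ⊢; omega
      have e1 : hh (1 / 2) (L + (t + 1)) t ≤ Pr (fun _ => (1 / 2 : ℝ)) U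
          (fun F => LRc 0 L 0 t F ∧ LRc L (L + (t + 1)) 0 t F) := by
        refine Pr_mono hok fun F _ hF => ⟨?_, ?_⟩
        · exact LRc_sub le_rfl hL0 (by omega) le_rfl le_rfl hF
        · exact LRc_sub hL0.le (by omega) le_rfl le_rfl le_rfl hF
      have e5 : Pr (fun _ => (1 / 2 : ℝ)) U
          (fun F => LRc 0 L 0 t F ∧ LRc L (L + (t + 1)) 0 t F) =
          Pr (fun _ => (1 / 2 : ℝ)) U (LRc 0 L 0 t) *
            Pr (fun _ => (1 / 2 : ℝ)) U (LRc L (L + (t + 1)) 0 t) :=
        Pr_indep (A := LRc 0 L 0 t) (B := LRc L (L + (t + 1)) 0 t) s1 s2 disj_LRE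
          (fun F _ => LRc_local (Finset.Subset.refl _))
          (fun F _ => LRc_local (Finset.Subset.refl _))
      refine e1.trans ?_
      rw [e5, pr_LRc _ s1, pr_LRc _ s2, pow_succ]
      have e2 : L + (t + 1) - L = (t : ℤ) + 1 := by ring
      have e3 : (t : ℤ) - 0 = t := by ring
      have e4 : L - 0 = L := by ring
      rw [e2, e3, e4, hh_half t (by positivity)]
      exact mul_le_mul_of_nonneg_right ih (by norm_num)

/-- The corridor crossed lengthwise, in the direction `d` from `W`: columns `h` to `H`, rows from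
`-t1` to `t2`. -/
def Thin (d : ℤ × ℤ) (W : Vtx) (h H : ℤ) (t1 t2 : ℤ) (F : Finset Edg) : Prop :=
  (d = (1, 0) ∧ LRc (W.1 + h) (W.1 + H) (W.2 + t1) (W.2 + t2) F) ∨
  (d = (-1, 0) ∧ LRc (W.1 - H) (W.1 - h) (W.2 + t1) (W.2 + t2) F) ∨
  (d = (0, 1) ∧ TBc (W.1 + t1) (W.1 + t2) (W.2 + h) (W.2 + H) F) ∨
  (d = (0, -1) ∧ TBc (W.1 + t1) (W.1 + t2) (W.2 - H) (W.2 - h) F)

theorem thin_le {d : ℤ × ℤ} (hd : Dir d) {W : Vtx} {h H t1 t2 : ℤ} {t k : ℕ} (hk : 1 ≤ k)
    (ht : t2 - t1 ≤ t) (hH : (k : ℤ) * (t + 1) ≤ H - h) {S : Finset Edg}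
    (hS : RE (W.1 - H) (W.1 + H) (W.2 - H) (W.2 + H) ⊆ S) (h0 : 0 ≤ h) (ht1 : -H ≤ t1)
    (ht2 : t2 ≤ H) :
    PQ (1 / 2) S (Thin d W h H t1 t2) ≤ (1 / 2) ^ k := by
  have hok : Ok (fun _ : Edg => (1 / 2 : ℝ)) := okq (by norm_num) (by norm_num)
  have hkt : (0 : ℤ) < (k : ℤ) * (t + 1) := by
    have : (0 : ℤ) < k := by exact_mod_cast hk
    positivity
  have key : ∀ b : ℤ, b ≤ t → hh (1 / 2) (H - h) b ≤ (1 / 2) ^ k := fun b hb =>
    (hh_mono (by norm_num) (by norm_num) hkt hH hb).trans (hh_thin t k)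
  have hdiff : t2 - t1 ≤ t := ht
  rcases hd with rfl | rfl | rfl | rfl
  · have e : Thin (0, 1) W h H t1 t2 = TBc (W.1 + t1) (W.1 + t2) (W.2 + h) (W.2 + H) := by
      funext F; simp [Thin]
    rw [e]
    unfold PQ
    have hS' : TBE (W.1 + t1) (W.1 + t2) (W.2 + h) (W.2 + H) ⊆ S := by
      refine subset_trans ?_ hS
      rintro ⟨x, y, _ | _⟩ h
      · simp only [mem_TBE_false, mem_RE_false] at h ⊢; omega
      · simp only [mem_TBE_true, mem_RE_true] at h ⊢; omega
    rw [pr_TBc _ hS', show W.2 + H - (W.2 + h) = H - h by ring]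
    exact key _ (by omega)
  · have e : Thin (0, -1) W h H t1 t2 = TBc (W.1 + t1) (W.1 + t2) (W.2 - H) (W.2 - h) := by
      funext F; simp [Thin]
    rw [e]
    unfold PQ
    have hS' : TBE (W.1 + t1) (W.1 + t2) (W.2 - H) (W.2 - h) ⊆ S := by
      refine subset_trans ?_ hS
      rintro ⟨x, y, _ | _⟩ h
      · simp only [mem_TBE_false, mem_RE_false] at h ⊢; omega
      · simp only [mem_TBE_true, mem_RE_true] at h ⊢; omega
    rw [pr_TBc _ hS', show W.2 - h - (W.2 - H) = H - h by ring]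
    exact key _ (by omega)
  · have e : Thin (1, 0) W h H t1 t2 = LRc (W.1 + h) (W.1 + H) (W.2 + t1) (W.2 + t2) := by
      funext F; simp [Thin]
    rw [e]
    unfold PQ
    have hS' : LRE (W.1 + h) (W.1 + H) (W.2 + t1) (W.2 + t2) ⊆ S := by
      refine subset_trans ?_ hS
      rintro ⟨x, y, _ | _⟩ h
      · simp only [mem_LRE_false, mem_RE_false] at h ⊢; omega
      · simp only [mem_LRE_true, mem_RE_true] at h ⊢; omega
    rw [pr_LRc _ hS', show W.1 + H - (W.1 + h) = H - h by ring]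
    exact key _ (by omega)
  · have e : Thin (-1, 0) W h H t1 t2 = LRc (W.1 - H) (W.1 - h) (W.2 + t1) (W.2 + t2) := by
      funext F; simp [Thin]
    rw [e]
    unfold PQ
    have hS' : LRE (W.1 - H) (W.1 - h) (W.2 + t1) (W.2 + t2) ⊆ S := by
      refine subset_trans ?_ hS
      rintro ⟨x, y, _ | _⟩ h
      · simp only [mem_LRE_false, mem_RE_false] at h ⊢; omega
      · simp only [mem_LRE_true, mem_RE_true] at h ⊢; omega
    rw [pr_LRc _ hS', show W.1 - h - (W.1 - H) = H - h by ring]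
    exact key _ (by omega)

/-- The start of the ray on the side `b`, at the distance `t1` (`t2`). -/
def side (d : ℤ × ℤ) (W : Vtx) (a : ℤ) : Vtx := if d.2 = 0 then (W.1, W.2 + a) else (W.1 + a, W.2)

/-- Coordinates along `d` and across. -/
def alo (d : ℤ × ℤ) (W v : Vtx) : ℤ := (v.1 - W.1) * d.1 + (v.2 - W.2) * d.2
def acr (d : ℤ × ℤ) (W v : Vtx) : ℤ := if d.2 = 0 then v.2 - W.2 else v.1 - W.1

/-- **The exit of the corridor.** -/
theorem exit {d : ℤ × ℤ} (hd : Dir d) {W : Vtx} {h H t1 t2 : ℤ} (h0 : 0 ≤ h) (hH : h < H)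
    {G : Set Edg} {F : Finset Edg} {S : Set Vtx}
    (hGF : ∀ e ∈ RE (W.1 - H) (W.1 + H) (W.2 - H) (W.2 + H), e ∈ G → e ∈ F)
    (hS : ∀ u ∈ S, ∀ v, Reach G u v → v ∈ S) (hav : ∀ v, alo d W v = 0 → t1 ≤ acr d W v →
      acr d W v ≤ t2 → v ∉ S) {v0 y : Vtx} (hv0 : v0 ∈ S) (ha0 : 0 < alo d W v0)
    (ha1 : alo d W v0 ≤ h) (hb0 : t1 < acr d W v0) (hb1 : acr d W v0 < t2) (hr : Reach G v0 y)
    (ht1 : -H ≤ t1) (ht2 : t2 ≤ H)
    (hy : alo d W y ≤ 0 ∨ H ≤ alo d W y ∨ acr d W y ≤ t1 ∨ t2 ≤ acr d W y) :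
    Thin d W h H t1 t2 F ∨ ∃ b : Bool, ∃ z ∈ S, ∃ s : ℤ, 0 < s ∧ s ≤ H ∧
      z = ((side d W (if b then t2 else t1)).1 + s * d.1,
        (side d W (if b then t2 else t1)).2 + s * d.2) := by
  have fin : ∀ {a b c e : ℤ}, W.1 - H ≤ a → b ≤ W.1 + H → W.2 - H ≤ c → e ≤ W.2 + H →
      ∀ {u z : Vtx}, Reach (G ∩ ↑(RE a b c e)) u z → Reach (↑F ∩ ↑(RE a b c e)) u z := by
    intro a b c e i1 i2 i3 i4 u z h
    refine h.mono ?_
    rintro g ⟨g1, g2⟩
    refine ⟨hGF g ?_ g1, g2⟩
    obtain ⟨x, y, _ | _⟩ := g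
    · simp only [mem_coe, mem_RE_false] at g2
      rw [mem_RE_false]; omega
    · simp only [mem_coe, mem_RE_true] at g2
      rw [mem_RE_true]; omega
  rcases hd with rfl | rfl | rfl | rfl
  · simp only [alo, acr, mul_zero, mul_one, zero_add, one_ne_zero, if_false] at *
    obtain ⟨z, hz1, hz2, hz3⟩ := first_exit (a := W.1 + t1) (b := W.1 + t2) (c := W.2)
      (d := W.2 + H) (G := G) (u := v0) (v := y) (by unfold inR; omega) hr (by omega)
    have hzS : z ∈ S := hS v0 hv0 z (hz3.mono Set.inter_subset_left)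
    unfold inR at hz1
    have h1 : 0 < z.2 - W.2 := by
      rcases lt_or_ge W.2 z.2 with h | h
      · omega
      · exact absurd hzS (hav z (by omega) (by omega) (by omega))
    by_cases hz4 : z.1 = W.1 + t1
    · right
      refine ⟨false, z, hzS, z.2 - W.2, h1, by omega, ?_⟩
      simp only [side, one_ne_zero, if_false, Bool.false_eq_true]
      ext <;> simp only <;> omega
    by_cases hz5 : z.1 = W.1 + t2
    · right
      refine ⟨true, z, hzS, z.2 - W.2, h1, by omega, ?_⟩
      simp only [side, one_ne_zero, if_false, if_true]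
      ext <;> simp only <;> omega
    have hz6 : z.2 = W.2 + H := by omega
    left; right; right; left
    refine ⟨rfl, ?_⟩
    have hr2 := fin (by omega) (by omega) (by omega) (by omega) hz3
    obtain ⟨x1, x2, k1, k2, k3, -⟩ := sub_TB (a := W.1 + t1) (b := W.1 + t2) (c := W.2 + h)
      (d := W.2 + H) (by omega)
      (by rintro x y ⟨-, h⟩ _ _; simp only [mem_coe, mem_RE_false] at h; omega)
      (by rintro x y ⟨-, h⟩ _ _; simp only [mem_coe, mem_RE_true] at h; omega) hr2 (by omega)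
      (by omega)
    refine ⟨x1, x2, k1, k2, k3.mono ?_⟩
    rintro e ⟨⟨k4, -⟩, k5⟩
    exact ⟨k4, k5⟩
  · simp only [alo, acr, mul_zero, mul_neg, mul_one, zero_add, neg_eq_zero, one_ne_zero,
      if_false] at *
    obtain ⟨z, hz1, hz2, hz3⟩ := first_exit (a := W.1 + t1) (b := W.1 + t2) (c := W.2 - H)
      (d := W.2) (G := G) (u := v0) (v := y) (by unfold inR; omega) hr (by omega)
    have hzS : z ∈ S := hS v0 hv0 z (hz3.mono Set.inter_subset_left)
    unfold inR at hz1
    have h1 : 0 < W.2 - z.2 := by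
      rcases lt_or_ge z.2 W.2 with h | h
      · omega
      · exact absurd hzS (hav z (by omega) (by omega) (by omega))
    by_cases hz4 : z.1 = W.1 + t1
    · right
      refine ⟨false, z, hzS, W.2 - z.2, h1, by omega, ?_⟩
      simp only [side, neg_eq_zero, one_ne_zero, if_false, Bool.false_eq_true]
      ext <;> simp only <;> omega
    by_cases hz5 : z.1 = W.1 + t2
    · right
      refine ⟨true, z, hzS, W.2 - z.2, h1, by omega, ?_⟩
      simp only [side, neg_eq_zero, one_ne_zero, if_false, if_true]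
      ext <;> simp only <;> omega
    have hz6 : z.2 = W.2 - H := by omega
    left; right; right; right
    refine ⟨rfl, ?_⟩
    have hr2 := (fin (by omega) (by omega) (by omega) (by omega) hz3).symm
    obtain ⟨x1, x2, k1, k2, k3, -⟩ := sub_TB (a := W.1 + t1) (b := W.1 + t2) (c := W.2 - H)
      (d := W.2 - h) (by omega)
      (by rintro x y ⟨-, h⟩ _ _; simp only [mem_coe, mem_RE_false] at h; omega)
      (by rintro x y ⟨-, h⟩ _ _; simp only [mem_coe, mem_RE_true] at h; omega) hr2 (by omega)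
      (by omega)
    refine ⟨x1, x2, k1, k2, k3.mono ?_⟩
    rintro e ⟨⟨k4, -⟩, k5⟩
    exact ⟨k4, k5⟩
  · simp only [alo, acr, mul_zero, mul_one, add_zero, if_true] at *
    obtain ⟨z, hz1, hz2, hz3⟩ := first_exit (a := W.1) (b := W.1 + H) (c := W.2 + t1)
      (d := W.2 + t2) (G := G) (u := v0) (v := y) (by unfold inR; omega) hr (by omega)
    have hzS : z ∈ S := hS v0 hv0 z (hz3.mono Set.inter_subset_left)
    unfold inR at hz1
    have h1 : 0 < z.1 - W.1 := by
      rcases lt_or_ge W.1 z.1 with h | h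
      · omega
      · exact absurd hzS (hav z (by omega) (by omega) (by omega))
    by_cases hz4 : z.2 = W.2 + t1
    · right
      refine ⟨false, z, hzS, z.1 - W.1, h1, by omega, ?_⟩
      simp only [side, if_true, Bool.false_eq_true, if_false]
      ext <;> simp only <;> omega
    by_cases hz5 : z.2 = W.2 + t2
    · right
      refine ⟨true, z, hzS, z.1 - W.1, h1, by omega, ?_⟩
      simp only [side, if_true]
      ext <;> simp only <;> omega
    have hz6 : z.1 = W.1 + H := by omega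
    left; left
    refine ⟨rfl, ?_⟩
    have hr2 := fin (by omega) (by omega) (by omega) (by omega) hz3
    obtain ⟨x1, x2, k1, k2, k3, -⟩ := sub_LR (a := W.1 + h) (b := W.1 + H) (c := W.2 + t1)
      (d := W.2 + t2) (by omega)
      (by rintro x y ⟨-, h⟩ _ _; simp only [mem_coe, mem_RE_true] at h; omega)
      (by rintro x y ⟨-, h⟩ _ _; simp only [mem_coe, mem_RE_false] at h; omega) hr2 (by omega)
      (by omega)
    refine ⟨x1, x2, k1, k2, k3.mono ?_⟩
    rintro e ⟨⟨k4, -⟩, k5⟩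
    exact ⟨k4, k5⟩
  · simp only [alo, acr, mul_zero, mul_neg, mul_one, add_zero, if_true] at *
    obtain ⟨z, hz1, hz2, hz3⟩ := first_exit (a := W.1 - H) (b := W.1) (c := W.2 + t1)
      (d := W.2 + t2) (G := G) (u := v0) (v := y) (by unfold inR; omega) hr (by omega)
    have hzS : z ∈ S := hS v0 hv0 z (hz3.mono Set.inter_subset_left)
    unfold inR at hz1
    have h1 : 0 < W.1 - z.1 := by
      rcases lt_or_ge z.1 W.1 with h | h
      · omega
      · exact absurd hzS (hav z (by omega) (by omega) (by omega))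
    by_cases hz4 : z.2 = W.2 + t1
    · right
      refine ⟨false, z, hzS, W.1 - z.1, h1, by omega, ?_⟩
      simp only [side, if_true, Bool.false_eq_true, if_false]
      ext <;> simp only <;> omega
    by_cases hz5 : z.2 = W.2 + t2
    · right
      refine ⟨true, z, hzS, W.1 - z.1, h1, by omega, ?_⟩
      simp only [side, if_true]
      ext <;> simp only <;> omega
    have hz6 : z.1 = W.1 - H := by omega
    left; right; left
    refine ⟨rfl, ?_⟩
    have hr2 := (fin (by omega) (by omega) (by omega) (by omega) hz3).symm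
    obtain ⟨x1, x2, k1, k2, k3, -⟩ := sub_LR (a := W.1 - H) (b := W.1 - h) (c := W.2 + t1)
      (d := W.2 + t2) (by omega)
      (by rintro x y ⟨-, h⟩ _ _; simp only [mem_coe, mem_RE_true] at h; omega)
      (by rintro x y ⟨-, h⟩ _ _; simp only [mem_coe, mem_RE_false] at h; omega) hr2 (by omega)
      (by omega)
    refine ⟨x1, x2, k1, k2, k3.mono ?_⟩
    rintro e ⟨⟨k4, -⟩, k5⟩
    exact ⟨k4, k5⟩

end Run7.h561.CC
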