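import Pool.Agent.Run7.h561.CC.Stm

/-!
# Project CC, the lower bound: statements (nothing is assumed)
-/

set_option autoImplicit false

namespace Run7.h561.CC

open H974 H12S Finset MeasureTheory TopologicalSpace Filter Topology Run7.h561.EC
open scoped ENNReal

/-- Coordinates along `d` and across. -/
def aloR (d : ℤ × ℤ) (w z : ℂ) : ℝ := (z.re - w.re) * d.1 + (z.im - w.im) * d.2
def acrR (d : ℤ × ℤ) (w z : ℂ) : ℝ := (z.re - w.re) * d.2 - (z.im - w.im) * d.1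

/-- The two starting points next to `w`. -/
noncomputable def wb (d : ℤ × ℤ) (w : ℂ) (s : ℝ) (b : Bool) : ℂ :=
  if d.2 = 0 then ⟨w.re, w.im + (if b then s else -s)⟩ else ⟨w.re + (if b then s else -s), w.im⟩

/-- The mesh of the grid at stage `k`. -/
noncomputable def sk (h k : ℕ) : ℝ := 1 / ((h : ℝ) + 1) / (6 * ((k : ℝ) + 1))

/-- The points of the grid. -/
noncomputable def gp (h k : ℕ) (i : ℤ × ℤ × (ℤ × ℤ)) : ℂ :=
  ⟨sk h k / 4 * i.1, sk h k / 4 * i.2.1⟩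

/-- The region. -/
def Lj (D : Set ℂ) (j : ℕ) : Set ℂ := {x | ‖x‖ ≤ j ∧ Metric.ball x (1 / ((j : ℝ) + 1)) ⊆ D}

open Classical in
/-- The indices: a point of the grid in the region, and a direction. -/
noncomputable def Ix (D : Set ℂ) (j h k : ℕ) : Finset (ℤ × ℤ × (ℤ × ℤ)) :=
  ((Finset.Icc (-(⌈4 * j / sk h k⌉ : ℤ)) ⌈4 * j / sk h k⌉) ×ˢ
    ((Finset.Icc (-(⌈4 * j / sk h k⌉ : ℤ)) ⌈4 * j / sk h k⌉) ×ˢ
      ({(0, 1), (0, -1), (1, 0), (-1, 0)} : Finset (ℤ × ℤ)))).filter (fun i => gp h k i ∈ Lj D j)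

/-- The open event: `K` avoids a small square around `w`, comes close to the ray of direction `d`
which starts at `w`, and is not small. -/
def Ev (j h k : ℕ) (i : ℤ × ℤ × (ℤ × ℤ)) : Set (NonemptyCompacts ℂ) :=
  {K | (∀ z ∈ K, ¬ (|z.re - (gp h k i).re| ≤ 2 * sk h k ∧ |z.im - (gp h k i).im| ≤ 2 * sk h k)) ∧
    (∃ z ∈ K, 0 < aloR i.2.2 (gp h k i) z ∧ aloR i.2.2 (gp h k i) z < 1 / ((h : ℝ) + 1) / 4 ∧
      |acrR i.2.2 (gp h k i) z| < sk h k / 2) ∧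
    ∃ x ∈ K, ∃ y ∈ K, 1 / ((j : ℝ) + 1) < dist x y}

/-- The target: the local boundary seen from the starting point number `b`. -/
def Tg (h k : ℕ) (i : ℤ × ℤ × (ℤ × ℤ)) (b : Bool) (K : NonemptyCompacts ℂ) : Set ℂ :=
  Lb (Sq (4 * (1 / ((h : ℝ) + 1))) (wb i.2.2 (gp h k i) (sk h k) b)) (K : Set ℂ)
    (wb i.2.2 (gp h k i) (sk h k) b)

/-- DL (deterministic): if the dimension is too small around a boundary point, then at all small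
scales there is an index for which both targets are too small. -/
def S_DL : Prop := ∀ c0 : ℝ, 0 < c0 →
  ∀ (D : Set ℂ) (K : NonemptyCompacts ℂ), IsOpen D → (K : Set ℂ).Nontrivial →
  ∀ U : Set ℂ, IsOpen U → ∀ w z : ℂ, z ∈ frontier (connectedComponentIn (U \ (K : Set ℂ)) w) →
  z ∈ U → z ∈ D → ∀ ρ : ℝ, 0 < ρ →
  dimH (frontier (connectedComponentIn (U \ (K : Set ℂ)) w) ∩ (U ∩ D ∩ Metric.ball z ρ)) < 4 / 3 →
  ∃ j h m : ℕ, 20 * (1 / ((h : ℝ) + 1)) ≤ 1 / ((j : ℝ) + 1) ∧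
    20 * (1 / ((h : ℝ) + 1)) ≤ c0 / ((j : ℝ) + 1) ∧ ∃ k0 : ℕ, ∀ k : ℕ, k0 ≤ k →
    ∃ i ∈ Ix D j h k, K ∈ Ev j h k i ∧
      ∀ b, ¬ ENNReal.ofReal (4 / 3 - 1 / ((m : ℝ) + 1)) ≤ dimH (Tg h k i b K)

/-- BAD (the probability): for one scale. -/
def S_BAD : Prop := ∀ (s : Seq) (D : Set ℂ), IsOpen D → s.Agree D → ∀ c0 : ℝ, 0 < c0 →
  ∀ C : ℕ → Finset Edg → NonemptyCompacts (NonemptyCompacts ℂ), s.Rule c0 C →
  ∀ μ : ProbabilityMeasure (NonemptyCompacts (NonemptyCompacts ℂ)),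
  Tendsto (fun n => s.law C n) atTop (𝓝 μ) → ∀ j h m k : ℕ,
  20 * (1 / ((h : ℝ) + 1)) ≤ 1 / ((j : ℝ) + 1) → 20 * (1 / ((h : ℝ) + 1)) ≤ c0 / ((j : ℝ) + 1) →
    (μ : Measure (NonemptyCompacts (NonemptyCompacts ℂ)))
      {𝒞 | ∃ K ∈ 𝒞, ∃ i ∈ Ix D j h k, K ∈ Ev j h k i ∧
        ∀ b, ¬ ENNReal.ofReal (4 / 3 - 1 / ((m : ℝ) + 1)) ≤ dimH (Tg h k i b K)} ≤
      ENNReal.ofReal ((Ix D j h k).card * (1 / 2) ^ (k + 1))

end Run7.h561.CC
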