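import Pool.Agent.Run7.h561.CC.Q_CO
import Pool.Agent.Run7.h561.CC.Q_TH
import Pool.Agent.Run7.h561.CC.StmL

/-! # The discrete geometry: one of the two rays meets the clusters -/

set_option autoImplicit false
set_option maxHeartbeats 400000

namespace Run7.h561.CC

open H974 H12S Finset H984N TopologicalSpace Run7.h561 Run7.h561.EC
open Pool.Agent.TH990.FU (zp)

/-- Close to `w` in the sense of the two coordinates. -/
def Cl (w z : ℂ) (r : ℝ) : Prop := |z.re - w.re| ≤ r ∧ |z.im - w.im| ≤ r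

theorem zp_re (δ : ℝ) (o : ℂ) (v : Vtx) : (zp δ o v).re = o.re + δ * v.1 := rfl
theorem zp_im (δ : ℝ) (o : ℂ) (v : Vtx) : (zp δ o v).im = o.im + δ * v.2 := rfl

theorem dist_re {z w : ℂ} {r : ℝ} (h : dist z w ≤ r) : |z.re - w.re| ≤ r := by
  have := Complex.abs_re_le_norm (z - w)
  rw [Complex.sub_re, ← dist_eq_norm] at this
  linarith

theorem dist_im {z w : ℂ} {r : ℝ} (h : dist z w ≤ r) : |z.im - w.im| ≤ r := by
  have := Complex.abs_im_le_norm (z - w)
  rw [Complex.sub_im, ← dist_eq_norm] at this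
  linarith

/-- Shifting a path into the box. -/
theorem reach_sub_of {G : Set Edg} {F : Finset Edg} {q : ℤ × ℤ} {N : ℕ} {u v : Vtx}
    (h : Reach (G ∩ ↑(RE q.1 (q.1 + N) q.2 (q.2 + N))) u v)
    (hGF : ∀ e ∈ RE q.1 (q.1 + N) q.2 (q.2 + N), e ∈ G → e ∈ F) :
    Reach (↑(Sub F q N) : Set Edg) (rel q u) (rel q v) := by
  unfold Reach at h ⊢
  refine Relation.ReflTransGen.lift (rel q) (p := Adj (↑(Sub F q N) : Set Edg)) ?_ _ _ h
  rintro a b ⟨e, ⟨he1, he2⟩, he3⟩
  refine ⟨(e.1 - q.1, e.2.1 - q.2, e.2.2), ?_, ?_⟩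
  · rw [Finset.mem_coe, mem_Sub]
    obtain ⟨x, y, c⟩ := e
    refine ⟨?_, ?_⟩
    · have : sh q (x - q.1, y - q.2, c) = (x, y, c) := by
        unfold sh
        simp
      rw [this]
      exact hGF _ he2 he1
    · cases c
      · simp only [mem_coe, mem_RE_false] at he2
        simp only [mem_RE_false]
        omega
      · simp only [mem_coe, mem_RE_true] at he2
        simp only [mem_RE_true]
        omega
  · obtain ⟨x, y, c⟩ := e
    cases c
    · simp only [src_mk, tgt_false] at he3 ⊢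
      rcases he3 with ⟨rfl, rfl⟩ | ⟨rfl, rfl⟩
      · left; unfold rel; constructor
        · rfl
        · ext <;> simp only; ring
      · right; unfold rel; constructor
        · rfl
        · ext <;> simp only; ring
    · simp only [src_mk, tgt_true] at he3 ⊢
      rcases he3 with ⟨rfl, rfl⟩ | ⟨rfl, rfl⟩
      · left; unfold rel; constructor
        · rfl
        · ext <;> simp only; ring
      · right; unfold rel; constructor
        · rfl
        · ext <;> simp only; ring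

theorem reach_of_sub {G : Set Edg} {F : Finset Edg} {q : ℤ × ℤ} {N : ℕ} {x y : Vtx}
    (h : Reach (↑(Sub F q N) : Set Edg) x y)
    (hFG : ∀ e ∈ RE q.1 (q.1 + N) q.2 (q.2 + N), e ∈ F → e ∈ G) :
    Reach G (shv q x) (shv q y) := by
  unfold Reach at h ⊢
  refine Relation.ReflTransGen.lift (shv q) (p := Adj G) ?_ _ _ h
  rintro a b ⟨e, he1, he3⟩
  rw [Finset.mem_coe, mem_Sub] at he1
  refine ⟨sh q e, hFG _ ?_ he1.1, ?_⟩
  · obtain ⟨x, y, c⟩ := e
    unfold sh
    cases c
    · have h2 := he1.2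
      simp only [mem_RE_false] at h2 ⊢
      omega
    · have h2 := he1.2
      simp only [mem_RE_true] at h2 ⊢
      omega
  · rw [src_sh, tgt_sh]
    rcases he3 with ⟨rfl, rfl⟩ | ⟨rfl, rfl⟩
    · exact Or.inl ⟨rfl, rfl⟩
    · exact Or.inr ⟨rfl, rfl⟩

/-- The clusters are admissible in the box. -/
theorem adm_box {G : Set Edg} {F : Finset Edg} {q : ℤ × ℤ} {N : ℕ} {S : Set Vtx}
    (hS : ∀ u ∈ S, ∀ v, Reach G u v → v ∈ S)
    (hGF : ∀ e ∈ RE q.1 (q.1 + N) q.2 (q.2 + N), e ∈ G ↔ e ∈ F)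
    (hfar : ∀ u ∈ S, inR q.1 (q.1 + N) q.2 (q.2 + N) u → ∃ v, Reach G u v ∧
      ¬ inR q.1 (q.1 + N) q.2 (q.2 + N) v) :
    Adm0 N (↑(Sub F q N) : Set Edg) {v | shv q v ∈ S} := by
  intro x hx hxF
  have hxS : shv q x ∈ S := hx
  have hb := not_FrB hxF
  refine ⟨fun y hy => ?_, ?_⟩
  · exact hS _ hxS _ (reach_of_sub hy (fun e he h => (hGF e he).2 h))
  · have hin : inR q.1 (q.1 + N) q.2 (q.2 + N) (shv q x) := by
      unfold inR shv
      simp only
      omega
    obtain ⟨v, hv1, hv2⟩ := hfar _ hxS hin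
    obtain ⟨z, hz1, hz2, hz3⟩ := first_exit hin hv1 (by
      unfold inR at hv2
      omega)
    have h1 := reach_sub_of hz3 (fun e he h => (hGF e he).1 h)
    rw [rel_shv] at h1
    refine ⟨rel q z, h1, ?_⟩
    unfold FrB rel
    rw [Set.mem_setOf_eq]
    simp only
    omega

/-- The side of the corridor. -/
noncomputable def tb (δ : ℝ) (o : ℂ) (d : ℤ × ℤ) (w : ℂ) (s : ℝ) (b : Bool) : ℤ :=
  if d.2 = 0 then (vw δ o (wb d w s b)).2 - (vw δ o w).2
  else (vw δ o (wb d w s b)).1 - (vw δ o w).1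

theorem side_eq {δ : ℝ} {o : ℂ} {d : ℤ × ℤ} {w : ℂ} {s : ℝ} (b : Bool) :
    side d (vw δ o w) (tb δ o d w s b) = vw δ o (wb d w s b) := by
  unfold side tb wb
  by_cases h : d.2 = 0
  · simp only [h, if_true]
    unfold vw
    ext
    · simp only
    · simp only; ring
  · simp only [h, if_false]
    unfold vw
    ext
    · simp only; ring
    · simp only

theorem tb_bd {δ : ℝ} (hδ : 0 < δ) {o : ℂ} {d : ℤ × ℤ} {w : ℂ} {s : ℝ} :
    (δ * (tb δ o d w s false : ℝ) ≤ -s + δ ∧ -s - δ ≤ δ * (tb δ o d w s false : ℝ)) ∧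
    s - δ ≤ δ * (tb δ o d w s true : ℝ) ∧ δ * (tb δ o d w s true : ℝ) ≤ s + δ := by
  obtain ⟨⟨a1, a2⟩, a3, a4⟩ := vw_bd hδ o w
  obtain ⟨⟨b1, b2⟩, b3, b4⟩ := vw_bd hδ o (wb d w s false)
  obtain ⟨⟨c1, c2⟩, c3, c4⟩ := vw_bd hδ o (wb d w s true)
  unfold tb
  by_cases h : d.2 = 0
  · simp only [h, if_true]
    have e1 : (wb d w s false).im = w.im - s := by unfold wb; simp [h]; ring
    have e2 : (wb d w s true).im = w.im + s := by unfold wb; simp [h]
    rw [e1] at b3 b4
    rw [e2] at c3 c4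
    push_cast
    refine ⟨⟨?_, ?_⟩, ?_, ?_⟩ <;> linarith
  · simp only [h, if_false]
    have e1 : (wb d w s false).re = w.re - s := by unfold wb; simp [h]; ring
    have e2 : (wb d w s true).re = w.re + s := by unfold wb; simp [h]
    rw [e1] at b1 b2
    rw [e2] at c1 c2
    push_cast
    refine ⟨⟨?_, ?_⟩, ?_, ?_⟩ <;> linarith

/-- Lattice coordinates and real coordinates. -/
theorem coord {d : ℤ × ℤ} (hd : Dir d) {δ : ℝ} (hδ : 0 < δ) {o w z : ℂ} {u : Vtx}
    (hz : dist z (zp δ o u) ≤ δ) :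
    |δ * (alo d (vw δ o w) u : ℝ) - aloR d w z| ≤ 2 * δ ∧
    |δ * (acr d (vw δ o w) u : ℝ)| ≤ |acrR d w z| + 2 * δ := by
  obtain ⟨⟨a1, a2⟩, a3, a4⟩ := vw_bd hδ o w
  have r1 := dist_re hz
  have r2 := dist_im hz
  rw [zp_re, abs_le] at r1
  rw [zp_im, abs_le] at r2
  rcases hd with rfl | rfl | rfl | rfl
  · unfold alo acr aloR acrR
    simp only [one_ne_zero, if_false, mul_zero, mul_one, zero_add, Int.cast_zero, Int.cast_one,
      sub_zero]
    push_cast
    refine ⟨?_, ?_⟩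
    · rw [abs_le]; constructor <;> linarith
    · have h1 := le_abs_self (z.re - w.re)
      have h2 := neg_abs_le (z.re - w.re)
      rw [abs_le]; constructor <;> linarith
  · unfold alo acr aloR acrR
    simp only [neg_eq_zero, one_ne_zero, if_false, mul_zero, mul_one, zero_add, Int.cast_zero,
      Int.cast_neg, Int.cast_one, sub_zero, mul_neg]
    push_cast
    refine ⟨?_, ?_⟩
    · rw [abs_le]; constructor <;> linarith
    · rw [abs_neg]
      have h1 := le_abs_self (z.re - w.re)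
      have h2 := neg_abs_le (z.re - w.re)
      rw [abs_le]; constructor <;> linarith
  · unfold alo acr aloR acrR
    simp only [if_true, mul_zero, mul_one, add_zero, Int.cast_zero, Int.cast_one, zero_sub]
    push_cast
    refine ⟨?_, ?_⟩
    · rw [abs_le]; constructor <;> linarith
    · rw [abs_neg]
      have h1 := le_abs_self (z.im - w.im)
      have h2 := neg_abs_le (z.im - w.im)
      rw [abs_le]; constructor <;> linarith
  · unfold alo acr aloR acrR
    simp only [if_true, mul_zero, mul_one, add_zero, Int.cast_zero, Int.cast_neg, Int.cast_one,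
      mul_neg, zero_sub, neg_neg]
    push_cast
    refine ⟨?_, ?_⟩
    · rw [abs_le]; constructor <;> linarith
    · have h1 := le_abs_self (z.im - w.im)
      have h2 := neg_abs_le (z.im - w.im)
      rw [abs_le]; constructor <;> linarith

/-- The converse: lattice coordinates control the position. -/
theorem coord' {d : ℤ × ℤ} (hd : Dir d) {δ : ℝ} (hδ : 0 < δ) {o w : ℂ} {u : Vtx} {r : ℝ}
    (h1 : |δ * (alo d (vw δ o w) u : ℝ)| ≤ r) (h2 : |δ * (acr d (vw δ o w) u : ℝ)| ≤ r) :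
    Cl w (zp δ o u) (r + δ) := by
  obtain ⟨⟨a1, a2⟩, a3, a4⟩ := vw_bd hδ o w
  rw [abs_le] at h1 h2
  unfold Cl
  rw [zp_re, zp_im]
  rcases hd with rfl | rfl | rfl | rfl
  · unfold alo acr at *
    simp only [one_ne_zero, if_false, mul_zero, mul_one, zero_add] at h1 h2
    push_cast at h1 h2
    constructor <;> rw [abs_le] <;> constructor <;> linarith
  · unfold alo acr at *
    simp only [neg_eq_zero, one_ne_zero, if_false, mul_zero, mul_one, zero_add, mul_neg] at h1 h2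
    push_cast at h1 h2
    constructor <;> rw [abs_le] <;> constructor <;> linarith
  · unfold alo acr at *
    simp only [if_true, mul_zero, mul_one, add_zero] at h1 h2
    push_cast at h1 h2
    constructor <;> rw [abs_le] <;> constructor <;> linarith
  · unfold alo acr at *
    simp only [if_true, mul_zero, mul_one, add_zero, mul_neg] at h1 h2
    push_cast at h1 h2
    constructor <;> rw [abs_le] <;> constructor <;> linarith

/-- **The corridor.** -/
theorem ray {d : ℤ × ℤ} (hd : Dir d) {δ : ℝ} (hδ : 0 < δ) {o w : ℂ} {s H : ℝ} (hs : 0 < s)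
    (hsH : 6 * s ≤ H) (hδs : 100 * δ ≤ s) {K : NonemptyCompacts ℂ} {S : Set Vtx} {G : Set Edg}
    {F : Finset Edg} (hS : ∀ u ∈ S, ∀ v, Reach G u v → v ∈ S)
    (hfar : ∀ u ∈ S, ∃ v, Reach G u v ∧ 20 * H ≤ dist (zp δ o u) (zp δ o v))
    (hSK : ∀ u ∈ S, ∃ z ∈ K, dist z (zp δ o u) ≤ δ)
    (hKS : ∀ z ∈ K, ∃ u ∈ S, dist z (zp δ o u) ≤ δ)
    (hGF : ∀ e : Edg, Cl w (zp δ o (src e)) (2 * H) → Cl w (zp δ o (tgt e)) (2 * H) →
      e ∈ G → e ∈ F)
    (h1 : ∀ z ∈ K, ¬ (|z.re - w.re| ≤ 2 * s ∧ |z.im - w.im| ≤ 2 * s))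
    (h2 : ∃ z ∈ K, 0 < aloR d w z ∧ aloR d w z < H / 4 ∧ |acrR d w z| < s / 2) :
    Thin d (vw δ o w) (⌈H / 4 / δ⌉₊ + 2) ⌈H / δ⌉₊ (tb δ o d w s false) (tb δ o d w s true) F ∨
      ∃ b : Bool, ∃ z ∈ S, ∃ k : ℤ, 0 < k ∧ k ≤ ⌈H / δ⌉₊ ∧
        z = ((vw δ o (wb d w s b)).1 + k * d.1, (vw δ o (wb d w s b)).2 + k * d.2) := by
  have hH : 0 < H := by linarith
  obtain ⟨z0, hz0, ha, hb, hc⟩ := h2
  obtain ⟨u0, hu0, hu0z⟩ := hKS z0 hz0
  obtain ⟨c1, c2⟩ := coord hd hδ (w := w) hu0z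
  obtain ⟨⟨t1, t2⟩, t3, t4⟩ := tb_bd hδ (o := o) (d := d) (w := w) (s := s)
  rw [abs_le] at c1 c2
  -- the point is beyond the square
  have ha' : 2 * s < aloR d w z0 := by
    by_contra hcon
    push Not at hcon
    apply h1 z0 hz0
    rw [abs_lt] at hc
    rcases hd with rfl | rfl | rfl | rfl
    · simp only [aloR, acrR, Int.cast_zero, Int.cast_one, mul_zero, mul_one, zero_add,
        sub_zero] at hcon ha hc
      constructor <;> rw [abs_le] <;> constructor <;> linarith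
    · simp only [aloR, acrR, Int.cast_zero, Int.cast_neg, Int.cast_one, mul_zero, mul_one,
        zero_add, sub_zero, mul_neg] at hcon ha hc
      constructor <;> rw [abs_le] <;> constructor <;> linarith
    · simp only [aloR, acrR, Int.cast_zero, Int.cast_one, mul_zero, mul_one, add_zero,
        zero_sub] at hcon ha hc
      constructor <;> rw [abs_le] <;> constructor <;> linarith
    · simp only [aloR, acrR, Int.cast_zero, Int.cast_neg, Int.cast_one, mul_zero, mul_one,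
        add_zero, zero_sub, mul_neg] at hcon ha hc
      constructor <;> rw [abs_le] <;> constructor <;> linarith
  have hHc : H / δ ≤ (⌈H / δ⌉₊ : ℝ) := Nat.le_ceil _
  have hHc2 : (⌈H / δ⌉₊ : ℝ) < H / δ + 1 := Nat.ceil_lt_add_one (by positivity)
  have hh1 : H / 4 / δ ≤ (⌈H / 4 / δ⌉₊ : ℝ) := Nat.le_ceil _
  have hh2 : (⌈H / 4 / δ⌉₊ : ℝ) < H / 4 / δ + 1 := Nat.ceil_lt_add_one (by positivity)
  have m1 : H ≤ δ * (⌈H / δ⌉₊ : ℝ) := by
    rw [div_le_iff₀ hδ] at hHc; linarith
  have m2 : δ * (⌈H / δ⌉₊ : ℝ) ≤ H + δ := by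
    have := mul_le_mul_of_nonneg_left hHc2.le hδ.le
    rw [mul_add, mul_one, mul_div_cancel₀ _ hδ.ne'] at this
    exact this
  have m3 : H / 4 ≤ δ * (⌈H / 4 / δ⌉₊ : ℝ) := by
    rw [div_le_iff₀ hδ] at hh1; linarith
  have m4 : δ * (⌈H / 4 / δ⌉₊ : ℝ) ≤ H / 4 + δ := by
    have := mul_le_mul_of_nonneg_left hh2.le hδ.le
    rw [mul_add, mul_one, mul_div_cancel₀ _ hδ.ne'] at this
    exact this
  obtain ⟨y, hy1, hy2⟩ := hfar u0 hu0
  have key := exit hd (W := vw δ o w) (h := (⌈H / 4 / δ⌉₊ + 2 : ℕ)) (H := (⌈H / δ⌉₊ : ℤ))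
    (t1 := tb δ o d w s false) (t2 := tb δ o d w s true) (G := G) (F := F) (S := S)
    (by positivity) ?_ ?_ hS ?_ hu0 ?_ ?_ ?_ ?_ hy1 ?_ ?_ ?_
  · rcases key with h | ⟨b, z, hz, k, hk1, hk2, hk3⟩
    · left
      push_cast at h
      exact h
    · right
      refine ⟨b, z, hz, k, hk1, hk2, ?_⟩
      cases b
      · simp only [Bool.false_eq_true, if_false] at hk3
        rw [side_eq] at hk3
        exact hk3
      · simp only [if_true] at hk3
        rw [side_eq] at hk3
        exact hk3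
  · -- h < H
    have : δ * (((⌈H / 4 / δ⌉₊ + 2 : ℕ) : ℝ)) < δ * (⌈H / δ⌉₊ : ℝ) := by
      push_cast
      linarith
    have := lt_of_mul_lt_mul_left this hδ.le
    exact_mod_cast this
  · -- the agreement
    intro e he heG
    have hcl : ∀ v : Vtx, inR ((vw δ o w).1 - ⌈H / δ⌉₊) ((vw δ o w).1 + ⌈H / δ⌉₊)
        ((vw δ o w).2 - ⌈H / δ⌉₊) ((vw δ o w).2 + ⌈H / δ⌉₊) v → Cl w (zp δ o v) (2 * H) := by
      rintro v ⟨⟨i1, i2⟩, i3, i4⟩
      obtain ⟨⟨a1, a2⟩, a3, a4⟩ := vw_bd hδ o w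
      have j1 : ((vw δ o w).1 : ℝ) - ⌈H / δ⌉₊ ≤ v.1 := by exact_mod_cast i1
      have j2 : (v.1 : ℝ) ≤ (vw δ o w).1 + ⌈H / δ⌉₊ := by exact_mod_cast i2
      have j3 : ((vw δ o w).2 : ℝ) - ⌈H / δ⌉₊ ≤ v.2 := by exact_mod_cast i3
      have j4 : (v.2 : ℝ) ≤ (vw δ o w).2 + ⌈H / δ⌉₊ := by exact_mod_cast i4
      have l1 := mul_le_mul_of_nonneg_left j1 hδ.le
      have l2 := mul_le_mul_of_nonneg_left j2 hδ.le
      have l3 := mul_le_mul_of_nonneg_left j3 hδ.le
      have l4 := mul_le_mul_of_nonneg_left j4 hδ.le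
      unfold Cl
      rw [zp_re, zp_im]
      constructor <;> rw [abs_le] <;> constructor <;> linarith
    refine hGF e (hcl _ ?_) (hcl _ ?_) heG
    · obtain ⟨x, y, _ | _⟩ := e
      · simp only [mem_RE_false] at he; unfold inR; simp only [src_mk]; omega
      · simp only [mem_RE_true] at he; unfold inR; simp only [src_mk]; omega
    · obtain ⟨x, y, _ | _⟩ := e
      · simp only [mem_RE_false] at he; unfold inR; simp only [tgt_false]; omega
      · simp only [mem_RE_true] at he; unfold inR; simp only [tgt_true]; omega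
  · -- the square is avoided
    intro v hv0 hv1 hv2 hvS
    obtain ⟨z, hz, hz2⟩ := hSK v hvS
    have i1 : (tb δ o d w s false : ℝ) ≤ acr d (vw δ o w) v := by exact_mod_cast hv1
    have i2 : (acr d (vw δ o w) v : ℝ) ≤ tb δ o d w s true := by exact_mod_cast hv2
    have l1 := mul_le_mul_of_nonneg_left i1 hδ.le
    have l2 := mul_le_mul_of_nonneg_left i2 hδ.le
    obtain ⟨k1, k2⟩ := coord' hd hδ (o := o) (w := w) (u := v) (r := s + δ)
      (by rw [hv0, Int.cast_zero, mul_zero, abs_zero]; linarith)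
      (by rw [abs_le]; constructor <;> linarith)
    have r1 := dist_re hz2
    have r2 := dist_im hz2
    rw [abs_le] at k1 k2 r1 r2
    apply h1 z hz
    constructor <;> rw [abs_le] <;> constructor <;> linarith
  · have : (0 : ℝ) < δ * (alo d (vw δ o w) u0 : ℝ) := by linarith
    have := pos_of_mul_pos_right this hδ.le
    exact_mod_cast this
  · have : δ * (alo d (vw δ o w) u0 : ℝ) ≤ δ * (((⌈H / 4 / δ⌉₊ + 2 : ℕ) : ℝ)) := by
      push_cast
      linarith
    have := le_of_mul_le_mul_left this hδ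
    exact_mod_cast this
  · have : δ * (tb δ o d w s false : ℝ) < δ * (acr d (vw δ o w) u0 : ℝ) := by linarith
    have := lt_of_mul_lt_mul_left this hδ.le
    exact_mod_cast this
  · have : δ * (acr d (vw δ o w) u0 : ℝ) < δ * (tb δ o d w s true : ℝ) := by linarith
    have := lt_of_mul_lt_mul_left this hδ.le
    exact_mod_cast this
  · have : δ * (-(⌈H / δ⌉₊ : ℝ)) ≤ δ * (tb δ o d w s false : ℝ) := by linarith
    have := le_of_mul_le_mul_left this hδ
    exact_mod_cast this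
  · have : δ * (tb δ o d w s true : ℝ) ≤ δ * (⌈H / δ⌉₊ : ℝ) := by linarith
    have := le_of_mul_le_mul_left this hδ
    exact_mod_cast this
  · -- the far point
    by_contra hcon
    push Not at hcon
    obtain ⟨n1, n2, n3, n4⟩ := hcon
    have i1 : (0 : ℝ) < alo d (vw δ o w) y := by exact_mod_cast n1
    have i2 : (alo d (vw δ o w) y : ℝ) < ⌈H / δ⌉₊ := by exact_mod_cast n2
    have i3 : (tb δ o d w s false : ℝ) < acr d (vw δ o w) y := by exact_mod_cast n3
    have i4 : (acr d (vw δ o w) y : ℝ) < tb δ o d w s true := by exact_mod_cast n4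
    have l1 := mul_le_mul_of_nonneg_left i1.le hδ.le
    have l2 := mul_le_mul_of_nonneg_left i2.le hδ.le
    have l3 := mul_le_mul_of_nonneg_left i3.le hδ.le
    have l4 := mul_le_mul_of_nonneg_left i4.le hδ.le
    obtain ⟨k1, k2⟩ := coord' hd hδ (o := o) (w := w) (u := y) (r := H + δ)
      (by rw [abs_le]; constructor <;> linarith) (by rw [abs_le]; constructor <;> linarith)
    obtain ⟨k3, k4⟩ := coord' hd hδ (o := o) (w := w) (u := u0) (r := H + δ)
      (by rw [abs_le]; constructor <;> linarith) (by rw [abs_le]; constructor <;> linarith)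
    have h5 : dist (zp δ o u0) (zp δ o y) ≤ 2 * (H + 2 * δ) + 2 * (H + 2 * δ) := by
      rw [abs_le] at k1 k2 k3 k4
      apply H984N.ML.dist_le_of
      · rw [abs_le]; constructor <;> linarith
      · rw [abs_le]; constructor <;> linarith
    linarith

end Run7.h561.CC
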